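import Mathlib

set_option autoImplicit false

/-!
The space of rational sequences with the product of the Sorgenfrey topologies (basic
neighbourhoods `Nb`) and with the product of the discrete topologies (cylinders `Cyl`).
-/

open Set Filter Topology

namespace Pool.Agent.W642.RP

/-- rational sequences -/
abbrev V := ℕ → ℚ

/-- sequences which agree with `d` before `n` -/
def Cyl (n : ℕ) (d : V) : Set V := {z | ∀ i < n, z i = d i}

/-- basic neighbourhood in the product of the Sorgenfrey topologies -/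
def Nb (n : ℕ) (x : V) : Set V := {z | ∀ i < n, x i ≤ z i ∧ z i < x i + 1 / ((n : ℚ) + 1)}

theorem one_div_pos (n : ℕ) : (0 : ℚ) < 1 / ((n : ℚ) + 1) := by positivity

theorem one_div_anti {m n : ℕ} (h : m ≤ n) : (1 : ℚ) / ((n : ℚ) + 1) ≤ 1 / ((m : ℚ) + 1) := by
  apply one_div_le_one_div_of_le (by positivity)
  exact_mod_cast Nat.add_le_add_right h 1

theorem exists_one_div_lt {ε : ℚ} (hε : 0 < ε) : ∃ n : ℕ, 1 / ((n : ℚ) + 1) < ε :=
  exists_nat_one_div_lt hε

theorem Nb_anti {m n : ℕ} (h : m ≤ n) (x : V) : Nb n x ⊆ Nb m x := by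
  intro z hz i hi
  obtain ⟨h1, h2⟩ := hz i (lt_of_lt_of_le hi h)
  exact ⟨h1, h2.trans_le (by linarith [one_div_anti h])⟩

theorem Cyl_sub_Nb (n : ℕ) (x : V) : Cyl n x ⊆ Nb n x := by
  intro z hz i hi
  rw [hz i hi]
  exact ⟨le_refl _, by linarith [one_div_pos n]⟩

theorem mem_Nb_self (n : ℕ) (x : V) : x ∈ Nb n x := Cyl_sub_Nb n x (fun _ _ => rfl)

theorem Cyl_anti {m n : ℕ} (h : m ≤ n) (x : V) : Cyl n x ⊆ Cyl m x :=
  fun _ hz i hi => hz i (lt_of_lt_of_le hi h)

theorem mem_Cyl_self (n : ℕ) (x : V) : x ∈ Cyl n x := fun _ _ => rfl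

/-- finitely supported sequences -/
def D : Submodule ℚ V where
  carrier := {v | ∃ n, ∀ i, n ≤ i → v i = 0}
  add_mem' := by
    rintro a b ⟨n, hn⟩ ⟨m, hm⟩
    refine ⟨max n m, fun i hi => ?_⟩
    rw [Pi.add_apply, hn i ((le_max_left _ _).trans hi), hm i ((le_max_right _ _).trans hi), add_zero]
  zero_mem' := ⟨0, fun _ _ => rfl⟩
  smul_mem' := by
    rintro c a ⟨n, hn⟩
    refine ⟨n, fun i hi => ?_⟩
    rw [Pi.smul_apply, hn i hi, smul_zero]

/-- truncation -/
def trunc (m : ℕ) (x : V) : V := fun i => if i < m then x i else 0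

theorem trunc_mem_D (m : ℕ) (x : V) : trunc m x ∈ D :=
  ⟨m, fun i hi => if_neg (not_lt.2 hi)⟩

theorem trunc_mem_Cyl (m : ℕ) (x : V) : trunc m x ∈ Cyl m x := fun _ hi => if_pos hi

theorem trunc_mem_Nb (m : ℕ) (x : V) : trunc m x ∈ Nb m x := Cyl_sub_Nb m x (trunc_mem_Cyl m x)

instance : Countable D := by
  have h : ∀ d : D, ∃ p : Σ n : ℕ, (Fin n → ℚ), (d : V) = fun i => if h : i < p.1 then p.2 ⟨i, h⟩ else 0 := by
    rintro ⟨d, n, hn⟩
    refine ⟨⟨n, fun i => d i⟩, ?_⟩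
    funext i
    by_cases hi : i < n
    · simp [hi]
    · simp [hi, hn i (not_lt.1 hi)]
  choose p hp using h
  have hinj : Function.Injective p := by
    intro a b hab
    apply Subtype.ext
    rw [hp a, hp b, hab]
  exact hinj.countable

/-- the graph of the limit function of `s` -/
def K (s : D → V) : Set (V × V) :=
  {p | ∀ n, ∃ m, ∀ d : D, (d : V) ∈ Nb m p.1 → s d ∈ Nb n p.2}

/-- the points where the `i`-th coordinate of the limit is `q` -/
def B (s : D → V) (i : ℕ) (q : ℚ) : Set V :=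
  {x | ∀ k : ℕ, ∃ m : ℕ, ∀ d : D, (d : V) ∈ Nb m x → q ≤ s d i ∧ s d i < q + 1 / ((k : ℚ) + 1)}

theorem B_unique {s : D → V} {i : ℕ} {q q' : ℚ} {x : V} (h : x ∈ B s i q) (h' : x ∈ B s i q') :
    q = q' := by
  have key : ∀ q q' : ℚ, x ∈ B s i q → x ∈ B s i q' → ¬ q < q' := by
    intro q q' h h' hlt
    obtain ⟨k, hk⟩ := exists_one_div_lt (sub_pos.2 hlt)
    obtain ⟨m, hm⟩ := h k
    obtain ⟨m', hm'⟩ := h' k
    have h1 := hm ⟨_, trunc_mem_D (max m m') x⟩
      (Nb_anti (le_max_left _ _) x (trunc_mem_Nb _ x))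
    have h2 := hm' ⟨_, trunc_mem_D (max m m') x⟩
      (Nb_anti (le_max_right _ _) x (trunc_mem_Nb _ x))
    linarith [h1.2, h2.1]
  exact le_antisymm (not_lt.1 (key q' q h' h)) (not_lt.1 (key q q' h h'))

theorem mem_K_iff {s : D → V} {x y : V} : (x, y) ∈ K s ↔ ∀ i, x ∈ B s i (y i) := by
  constructor
  · intro h i k
    obtain ⟨m, hm⟩ := h (max k (i + 1))
    refine ⟨m, fun d hd => ?_⟩
    obtain ⟨h1, h2⟩ := hm d hd i (lt_of_lt_of_le (Nat.lt_succ_self i) (le_max_right _ _))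
    exact ⟨h1, h2.trans_le (by linarith [one_div_anti (le_max_left k (i + 1))])⟩
  · intro h n
    choose m hm using fun i => h i n
    refine ⟨(Finset.range n).sup m, fun d hd i hi => ?_⟩
    exact hm i d (Nb_anti (Finset.le_sup (Finset.mem_range.2 hi)) x hd)

theorem K_unique {s : D → V} {x y y' : V} (h : (x, y) ∈ K s) (h' : (x, y') ∈ K s) : y = y' := by
  rw [mem_K_iff] at h h'
  funext i
  exact B_unique (h i) (h' i)

/-- the discrete topology of the rationals -/
@[reducible] def tQ : TopologicalSpace ℚ := ⊥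

theorem dQ : @DiscreteTopology ℚ tQ := @DiscreteTopology.mk ℚ tQ rfl

theorem bQ : @BorelSpace ℚ tQ _ :=
  @BorelSpace.mk ℚ tQ _ (@borel_eq_top_of_discrete ℚ tQ dQ).symm

attribute [local instance 10000] tQ dQ bQ

/-- comeager sets for the product of the discrete topologies -/
def RS : Filter V := residual V

theorem isOpen_Cyl (n : ℕ) (d : V) : IsOpen (Cyl n d) :=
  PiNat.isOpen_cylinder (fun _ => ℚ) d n

theorem isClosed_Cyl (n : ℕ) (d : V) : IsClosed (Cyl n d) := by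
  have h : Cyl n d = ⋂ i : Fin n, {z : V | z i = d i} := by
    ext z
    simp only [mem_iInter]
    exact ⟨fun h i => h i i.2, fun h i hi => h ⟨i, hi⟩⟩
  rw [h]
  refine isClosed_iInter fun i => ?_
  exact (isClosed_discrete {d i}).preimage (continuous_apply (A := fun _ : ℕ => ℚ) (i : ℕ))

theorem exists_Cyl {O : Set V} (hO : IsOpen O) {x : V} (hx : x ∈ O) : ∃ m, Cyl m x ⊆ O := by
  obtain ⟨s, ⟨y, m, rfl⟩, hxs, hs⟩ :=
    (PiNat.isTopologicalBasis_cylinders (fun _ : ℕ => ℚ)).exists_subset_of_mem_open hx hO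
  refine ⟨m, ?_⟩
  have h1 : PiNat.cylinder (E := fun _ : ℕ => ℚ) x m = PiNat.cylinder y m :=
    PiNat.mem_cylinder_iff_eq.1 hxs
  have h2 : Cyl m x = PiNat.cylinder (E := fun _ : ℕ => ℚ) x m := rfl
  rw [h2, h1]
  exact hs

end Pool.Agent.W642.RP
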