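import Mathlib
import Pool.Agent.W642.RP.Basic
import Pool.Agent.W642.RP.Myc

set_option autoImplicit false

open Set Filter Topology Cardinal

namespace Pool.Agent.W642.RP

attribute [local instance 10000] tQ dQ bQ

/-- `G` meets every comeager subset of every cylinder -/
def Big (G : Submodule ℚ V) : Prop :=
  ∀ (n : ℕ) (d : V), ∀ R ∈ RS, ∃ x ∈ G, x ∈ Cyl n d ∧ x ∈ R

theorem measurableSet_Nb (m : ℕ) (d : V) : MeasurableSet {x : V | d ∈ Nb m x} := by
  have h : {x : V | d ∈ Nb m x} =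
      ⋂ i : Fin m, {x : V | x i ∈ {q : ℚ | q ≤ d i ∧ d i < q + 1 / ((m : ℚ) + 1)}} := by
    ext x
    simp only [Nb, mem_iInter]
    exact ⟨fun h i => h i i.2, fun h i hi => h ⟨i, hi⟩⟩
  rw [h]
  refine MeasurableSet.iInter fun i => ?_
  exact measurableSet_preimage (measurable_pi_apply (X := fun _ : ℕ => ℚ) (i : ℕ))
    (MeasurableSpace.measurableSet_top (s := ({q : ℚ | q ≤ d i ∧ d i < q + 1 / ((m : ℚ) + 1)} : Set ℚ)))

theorem measurableSet_B (s : D → V) (i : ℕ) (q : ℚ) : MeasurableSet (B s i q) := by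
  have h : B s i q = ⋂ k : ℕ, ⋃ m : ℕ, ⋂ d : D,
      {x : V | (d : V) ∈ Nb m x → q ≤ s d i ∧ s d i < q + 1 / ((k : ℚ) + 1)} := by
    ext x
    simp only [B, mem_iInter, mem_iUnion]
    exact Iff.rfl
  rw [h]
  refine MeasurableSet.iInter fun k => MeasurableSet.iUnion fun m =>
    MeasurableSet.iInter fun d => ?_
  by_cases hd : q ≤ s d i ∧ s d i < q + 1 / ((k : ℚ) + 1)
  · have h1 : {x : V | (d : V) ∈ Nb m x → q ≤ s d i ∧ s d i < q + 1 / ((k : ℚ) + 1)} = Set.univ :=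
      eq_univ_of_forall fun x _ => hd
    rw [h1]
    exact MeasurableSet.univ
  · have h1 : {x : V | (d : V) ∈ Nb m x → q ≤ s d i ∧ s d i < q + 1 / ((k : ℚ) + 1)} =
        {x : V | (d : V) ∈ Nb m x}ᶜ := by
      ext x
      exact ⟨fun h2 h3 => hd (h2 h3), fun h2 h3 => absurd h3 h2⟩
    rw [h1]
    exact (measurableSet_Nb m d).compl

/-- the domain of the limit function -/
def dom (s : D → V) : Set V := ⋂ i, ⋃ q : ℚ, B s i q

theorem measurableSet_dom (s : D → V) : MeasurableSet (dom s) :=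
  MeasurableSet.iInter fun i => MeasurableSet.iUnion fun q =>
    measurableSet_B s i q

theorem mem_dom_iff {s : D → V} {x : V} : x ∈ dom s ↔ ∃ y, (x, y) ∈ K s := by
  simp only [mem_K_iff]
  constructor
  · intro h
    choose y hy using fun i => mem_iUnion.1 (mem_iInter.1 h i)
    exact ⟨y, hy⟩
  · rintro ⟨y, hy⟩
    exact mem_iInter.2 fun i => mem_iUnion.2 ⟨y i, hy i⟩

/-- a Borel set which contains a big set is comeager -/
theorem mem_RS_of_big {G : Submodule ℚ V} (hG : Big G) {M : Set V}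
    (hM : MeasurableSet M) (hGM : ∀ x ∈ G, x ∈ M) : M ∈ RS := by
  obtain ⟨u, hu, hMu⟩ := MeasurableSet.residualEq_isOpen hM.compl
  have h1 : {x : V | x ∈ Mᶜ ↔ x ∈ u} ∈ RS := Filter.eventuallyEq_set.1 hMu
  have h2 : u = ∅ := by
    by_contra hne
    obtain ⟨x, hx⟩ := Set.nonempty_iff_ne_empty.2 hne
    obtain ⟨m, hm⟩ := exists_Cyl hu hx
    obtain ⟨y, hyG, hy1, hy2⟩ := hG m x _ h1
    exact (hy2.2 (hm hy1)) (hGM y hyG)
  filter_upwards [h1] with x hx
  by_contra h3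
  have h4 := hx.1 h3
  rw [h2] at h4
  exact h4

/-- Mycielski's theorem for sequences -/
theorem myc {R : Set V} (hR : R ∈ RS) (n : ℕ) (d : V) (W : ℕ → Set (V × V))
    (hW : ∀ k, IsOpen (W k))
    (hWd : ∀ k, ∀ m a b, a ∈ Cyl n d → b ∈ Cyl n d → ∃ a' ∈ Cyl m a, ∃ b' ∈ Cyl m b, (a', b') ∈ W k) :
    ∃ h : (ℕ → Bool) → V, (∀ b, h b ∈ Cyl n d ∧ h b ∈ R) ∧
      ∀ b b', b ≠ b' → ∀ k, (h b, h b') ∈ W k := by
  obtain ⟨S, hSo, hSd, hSc, hSR⟩ := (mem_residual_iff).1 hR
  have hne : Nonempty V := ⟨d⟩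
  obtain ⟨O, hO⟩ : ∃ O : ℕ → Set V, (∀ k, IsOpen (O k)) ∧ (∀ k, Dense (O k)) ∧
      (⋂ k, O k) ⊆ R := by
    have h1 : (insert Set.univ S).Countable := hSc.insert _
    obtain ⟨O, hO⟩ := h1.exists_eq_range (insert_nonempty _ _)
    refine ⟨O, fun k => ?_, fun k => ?_, ?_⟩
    · have : O k ∈ insert Set.univ S := by rw [hO]; exact mem_range_self k
      rcases this with h | h
      · rw [h]; exact isOpen_univ
      · exact hSo _ h
    · have : O k ∈ insert Set.univ S := by rw [hO]; exact mem_range_self k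
      rcases this with h | h
      · rw [h]; exact dense_univ
      · exact hSd _ h
    · intro x hx
      apply hSR
      intro t ht
      have : t ∈ insert Set.univ S := Or.inr ht
      rw [hO] at this
      obtain ⟨k, rfl⟩ := this
      exact mem_iInter.1 hx k
  let _ := TopologicalSpace.upgradeIsCompletelyMetrizable V
  obtain ⟨z, -, h1, h2, h3⟩ := Pool.Agent.W642.Myc.mycielski (isOpen_Cyl n d)
    ⟨d, mem_Cyl_self n d⟩ hO.1 (fun k x _ => hO.2.1 k x) hW (fun k => by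
      rintro ⟨a, b⟩ ⟨ha, hb⟩
      rw [mem_closure_iff]
      intro o ho hab
      obtain ⟨u, v, hu, hv, hau, hbv, huv⟩ := isOpen_prod_iff.1 ho a b hab
      obtain ⟨m1, hm1⟩ := exists_Cyl hu hau
      obtain ⟨m2, hm2⟩ := exists_Cyl hv hbv
      obtain ⟨a', ha', b', hb', hab'⟩ := hWd k (max m1 m2) a b ha hb
      exact ⟨(a', b'), huv ⟨hm1 (Cyl_anti (le_max_left _ _) _ ha'),
        hm2 (Cyl_anti (le_max_right _ _) _ hb')⟩, hab'⟩)
  exact ⟨z, fun b => ⟨h1 b, hO.2.2 (mem_iInter.2 (h2 b))⟩, h3⟩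

theorem continuum_le_of_mem_RS {R : Set V} (hR : R ∈ RS) (n : ℕ) (d : V) :
    𝔠 ≤ #((Cyl n d ∩ R : Set V)) := by
  obtain ⟨h, h1, h2⟩ := myc hR n d (fun _ => {p | p.1 ≠ p.2}) (fun _ => by
      exact isOpen_ne_fun continuous_fst continuous_snd) (by
    intro _ m a b _ _
    by_cases hab : a = b
    · refine ⟨a, mem_Cyl_self m a, fun i => if i = m then a m + 1 else a i, ?_, ?_⟩
      · intro i hi
        rw [← hab]
        exact if_neg hi.ne
      · intro h
        have := congrFun h m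
        simp at this
    · exact ⟨a, mem_Cyl_self m a, b, mem_Cyl_self m b, hab⟩)
  have h3 : Function.Injective fun b => (⟨h b, h1 b⟩ : (Cyl n d ∩ R : Set V)) := by
    intro b b' hbb
    by_contra hne
    exact h2 b b' hne 0 (congrArg Subtype.val hbb)
  have h4 := mk_le_of_injective h3
  have h5 : #(ℕ → Bool) = 𝔠 := by simp
  rwa [h5] at h4

/-- the generic form of the limit functions which are not killed -/
theorem generic {G : Submodule ℚ V} (hG : Big G) (s : D → V) (hs : ∀ x ∈ G, ∃ y, (x, y) ∈ K s)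
    {S : Submodule ℚ V} (hS : #S < 𝔠)
    (hKS : ∀ x y, (x, y) ∈ K s → x ∉ S → ∃ q : ℚ, y - q • x ∈ S) (n : ℕ) (d : V) :
    ∃ (n' : ℕ) (d' : V) (q : ℚ) (g : V) (R : Set V), R ∈ RS ∧ n ≤ n' ∧ d' ∈ Cyl n d ∧
      ∀ x ∈ Cyl n' d', x ∈ R → (x, q • x + g) ∈ K s := by
  classical
  have hdom : dom s ∈ RS := mem_RS_of_big hG (measurableSet_dom s) fun x hx => mem_dom_iff.2 (hs x hx)
  choose A hAo hA using fun (p : ℕ × ℚ) => (measurableSet_B s p.1 p.2).residualEq_isOpen
  have hA' : ∀ p : ℕ × ℚ, {x : V | x ∈ B s p.1 p.2 ↔ x ∈ A p} ∈ RS := fun p =>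
    Filter.eventuallyEq_set.1 (hA p)
  have : CountableInterFilter RS := inferInstanceAs (CountableInterFilter (residual V))
  set R : Set V := dom s ∩ ⋂ p : ℕ × ℚ, {x : V | x ∈ B s p.1 p.2 ↔ x ∈ A p} with hRdef
  have hR : R ∈ RS := Filter.inter_mem hdom ((countable_iInter_mem).2 hA')
  have hRA : ∀ x ∈ R, ∀ y, (x, y) ∈ K s → ∀ i r, x ∈ A (i, r) ↔ r = y i := by
    intro x hx y hxy i r
    have h1 := mem_iInter.1 hx.2 (i, r)
    have h2 : x ∈ B s i r ↔ x ∈ A (i, r) := h1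
    rw [← h2]
    have h3 := mem_K_iff.1 hxy i
    exact ⟨fun h => B_unique h h3, fun h => by rw [h]; exact h3⟩
  -- the relations
  let W : ℚ → Set (V × V) := fun q =>
    ⋃ (i : ℕ) (r : ℚ) (r' : ℚ), (A (i, r) ×ˢ A (i, r')) ∩
      {p : V × V | r - q * p.1 i ≠ r' - q * p.2 i}
  have hWo : ∀ q, IsOpen (W q) := by
    intro q
    refine isOpen_iUnion fun i => isOpen_iUnion fun r => isOpen_iUnion fun r' => ?_
    refine ((hAo _).prod (hAo _)).inter ?_
    have h1 : Continuous fun p : V × V => (p.1 i, p.2 i) := by fun_prop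
    exact (isOpen_discrete {c : ℚ × ℚ | r - q * c.1 ≠ r' - q * c.2}).preimage h1
  have hWR : ∀ q, ∀ x ∈ R, ∀ x' ∈ R, ∀ y y', (x, y) ∈ K s → (x', y') ∈ K s →
      ((x, x') ∈ W q ↔ y - q • x ≠ y' - q • x') := by
    intro q x hx x' hx' y y' hy hy'
    constructor
    · intro h heq
      simp only [W, mem_iUnion] at h
      obtain ⟨i, r, r', ⟨h1, h2⟩, h3⟩ := h
      have e1 := (hRA x hx y hy i r).1 h1
      have e2 := (hRA x' hx' y' hy' i r').1 h2
      apply h3
      have h4 := congrFun heq i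
      simp only [Pi.sub_apply, Pi.smul_apply, smul_eq_mul] at h4
      rw [e1, e2]
      exact h4
    · intro h
      obtain ⟨i, hi⟩ := Function.ne_iff.1 h
      simp only [W, mem_iUnion]
      refine ⟨i, y i, y' i, ⟨(hRA x hx y hy i _).2 rfl, (hRA x' hx' y' hy' i _).2 rfl⟩, ?_⟩
      simp only [Pi.sub_apply, Pi.smul_apply, smul_eq_mul] at hi
      exact hi
  by_cases hcase : ∀ q : ℚ, ∀ m a b, a ∈ Cyl n d → b ∈ Cyl n d →
      ∃ a' ∈ Cyl m a, ∃ b' ∈ Cyl m b, (a', b') ∈ W q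
  · exfalso
    obtain ⟨e, he⟩ := exists_surjective_nat ℚ
    obtain ⟨h, h1, h2⟩ := myc hR n d (fun k => W (e k)) (fun k => hWo _) (fun k => hcase (e k))
    have h2' : ∀ b b', b ≠ b' → ∀ q, (h b, h b') ∈ W q := by
      intro b b' hbb q
      obtain ⟨k, rfl⟩ := he q
      exact h2 b b' hbb k
    choose y hy using fun b => mem_dom_iff.1 ((h1 b).2.1)
    have hne : ∀ b b', b ≠ b' → ∀ q : ℚ, y b - q • h b ≠ y b' - q • h b' := fun b b' hbb q =>
      (hWR q _ (h1 b).2 _ (h1 b').2 _ _ (hy b) (hy b')).1 (h2' b b' hbb q)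
    have hinj : Function.Injective h := by
      intro b b' hbb
      by_contra hn
      have h3 := hne b b' hn 0
      rw [zero_smul, zero_smul, sub_zero, sub_zero] at h3
      apply h3
      have h4 := hy b
      rw [hbb] at h4
      exact K_unique h4 (hy b')
    have hc : ∀ b, ∃ c : S ⊕ (ℚ × S), (∀ v, c = Sum.inl v → h b = v) ∧
        (∀ q v, c = Sum.inr (q, v) → y b - q • h b = v) := by
      intro b
      by_cases hb : h b ∈ S
      · exact ⟨Sum.inl ⟨h b, hb⟩, fun v hv => by rw [← Sum.inl.inj hv],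
          fun q v hv => absurd hv (by simp)⟩
      · obtain ⟨q, hq⟩ := hKS _ _ (hy b) hb
        refine ⟨Sum.inr (q, ⟨_, hq⟩), fun v hv => absurd hv (by simp), fun q' v hv => ?_⟩
        have h3 := Sum.inr.inj hv
        rw [Prod.mk.injEq] at h3
        rw [← h3.1, ← h3.2]
    choose c hc1 hc2 using hc
    have hcinj : Function.Injective c := by
      intro b b' hbb
      rcases hcb : c b with v | ⟨q, v⟩
      · exact hinj ((hc1 b v hcb).trans (hc1 b' v (hbb ▸ hcb)).symm)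
      · by_contra hn
        exact hne b b' hn q ((hc2 b q v hcb).trans (hc2 b' q v (hbb ▸ hcb)).symm)
    have h5 : #(ℕ → Bool) = 𝔠 := by simp
    have h6 := mk_le_of_injective hcinj
    rw [h5] at h6
    refine absurd h6 (not_le.2 ?_)
    rw [mk_sum, mk_prod]
    simp only [lift_id]
    refine add_lt_of_lt aleph0_le_continuum hS (mul_lt_of_lt aleph0_le_continuum ?_ hS)
    rw [mk_eq_aleph0]
    exact aleph0_lt_continuum
  · push Not at hcase
    obtain ⟨q, m, a, b, ha, hb, hab⟩ := hcase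
    obtain ⟨x1, hx1G, hx1, hx1R⟩ := hG (max m n) b R hR
    obtain ⟨y1, hy1⟩ := mem_dom_iff.1 hx1R.1
    refine ⟨max m n, a, q, y1 - q • x1, R, hR, le_max_right _ _, ha, fun x hx hxR => ?_⟩
    obtain ⟨y, hy⟩ := mem_dom_iff.1 hxR.1
    have h1 : y - q • x = y1 - q • x1 := by
      by_contra hne
      exact hab x (Cyl_anti (le_max_left _ _) _ hx) x1 (Cyl_anti (le_max_left _ _) _ hx1)
        ((hWR q x hxR x1 hx1R y y1 hy hy1).2 hne)
    rw [← h1]
    rwa [add_sub_cancel]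

end Pool.Agent.W642.RP
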