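import Mathlib
import Pool.Agent.W642.RP.Generic

set_option autoImplicit false

open Set Filter Topology Cardinal

namespace Pool.Agent.W642.RP

attribute [local instance 10000] tQ dQ bQ

/-- continuity of a self map of `G` for the Sorgenfrey product topology -/
def TC {G : Submodule ℚ V} (f : G → G) : Prop :=
  ∀ x : G, ∀ n, ∃ m, ∀ z : G, (z : V) ∈ Nb m x → (f z : V) ∈ Nb n (f x)

/-- every relation given by the limit of a sequence is killed or generically affine -/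
def Kill (G : Submodule ℚ V) : Prop :=
  ∀ s : D → V, (∃ x y, (x, y) ∈ K s ∧ x ∈ G ∧ y ∉ G) ∨
      ∃ S : Submodule ℚ V, #S < 𝔠 ∧ ∀ x y, (x, y) ∈ K s → x ∉ S → ∃ q : ℚ, y - q • x ∈ S

theorem eq_of_Nb {a b : ℚ} (h : ∀ k : ℕ, a ≤ b ∧ b < a + 1 / ((k : ℚ) + 1)) : a = b := by
  by_contra hne
  have h1 : a < b := lt_of_le_of_ne (h 0).1 hne
  obtain ⟨k, hk⟩ := exists_one_div_lt (sub_pos.2 h1)
  linarith [(h k).2]

theorem affine {G : Submodule ℚ V} (hD : D ≤ G) (hG : Big G) (hK : Kill G) (f : G → G) (hf : TC f)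
    (n : ℕ) (d : V) : ∃ (n' : ℕ) (d' : V) (q : ℚ) (g : G), n ≤ n' ∧ d' ∈ Cyl n d ∧ 0 ≤ q ∧
      ∀ x : G, (x : V) ∈ Cyl n' d' → f x = q • x + g := by
  let s : D → V := fun d => f ⟨d, hD d.2⟩
  have hs : ∀ x (hx : x ∈ G), (x, (f ⟨x, hx⟩ : V)) ∈ K s := by
    intro x hx n
    obtain ⟨m, hm⟩ := hf ⟨x, hx⟩ n
    exact ⟨m, fun d hd => hm ⟨d, hD d.2⟩ hd⟩
  rcases hK s with ⟨x, y, hxy, hx, hy⟩ | ⟨S, hS, hKS⟩
  · exfalso
    apply hy
    rw [K_unique hxy (hs x hx)]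
    exact (f ⟨x, hx⟩).2
  · obtain ⟨n', d', q, g, R, hR, hn, hd, hRK⟩ :=
      generic hG s (fun x hx => ⟨_, hs x hx⟩) hS hKS n d
    have h1 : ∀ x : G, (x : V) ∈ Cyl n' d' → (x : V) ∈ R → (f x : V) = q • (x : V) + g :=
      fun x hx hxR => K_unique (hs x x.2) (hRK x hx hxR)
    obtain ⟨x0, hx0G, hx0C, hx0R⟩ := hG n' d' R hR
    have hg : g ∈ G := by
      have h2 := h1 ⟨x0, hx0G⟩ hx0C hx0R
      have h3 : g = (f ⟨x0, hx0G⟩ : V) - q • x0 := by
        rw [h2]; simp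
      rw [h3]
      exact sub_mem (f _).2 (G.smul_mem q hx0G)
    refine ⟨n', d', q, ⟨g, hg⟩, hn, hd, ?_, ?_⟩
    · by_contra hq
      push Not at hq
      obtain ⟨m, hm⟩ := hf ⟨x0, hx0G⟩ (n' + 1)
      let w : V := fun i => if i = n' then x0 i + 1 / (((m + 1 : ℕ) : ℚ) + 1) else x0 i
      obtain ⟨z, hzG, hzC, hzR⟩ := hG (max m (n' + 1)) w R hR
      have hz : ∀ i, i < max m (n' + 1) → i ≠ n' → z i = x0 i := fun i hi hne => by
        rw [hzC i hi]; exact if_neg hne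
      have hzn : z n' = x0 n' + 1 / (((m + 1 : ℕ) : ℚ) + 1) := by
        rw [hzC n' (lt_of_lt_of_le (Nat.lt_succ_self _) (le_max_right _ _))]
        exact if_pos rfl
      have h2 := hm ⟨z, hzG⟩ (by
        intro i hi
        by_cases hin : i = n'
        · subst hin
          show x0 i ≤ z i ∧ z i < x0 i + _
          rw [hzn]
          have h3 : (1 : ℚ) / (((m + 1 : ℕ) : ℚ) + 1) < 1 / ((m : ℚ) + 1) := by
            apply one_div_lt_one_div_of_lt (by positivity)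
            push_cast
            linarith
          exact ⟨by linarith [one_div_pos (m + 1)], by linarith⟩
        · show x0 i ≤ z i ∧ z i < x0 i + _
          rw [hz i (lt_of_lt_of_le hi (le_max_left _ _)) hin]
          exact ⟨le_refl _, by linarith [one_div_pos m]⟩)
      have h3 := (h2 n' (Nat.lt_succ_self _)).1
      have hzC' : z ∈ Cyl n' d' := fun i hi => by
        rw [hz i (lt_of_lt_of_le (hi.trans (Nat.lt_succ_self _)) (le_max_right _ _)) hi.ne]
        exact hx0C i hi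
      rw [h1 ⟨z, hzG⟩ hzC' hzR, h1 ⟨x0, hx0G⟩ hx0C hx0R] at h3
      simp only [Pi.add_apply, Pi.smul_apply, smul_eq_mul] at h3
      rw [hzn] at h3
      nlinarith [one_div_pos (m + 1)]
    · intro x hx
      apply Subtype.ext
      funext i
      show (f x : V) i = q * (x : V) i + g i
      apply eq_of_Nb
      intro k
      obtain ⟨m, hm⟩ := hf x (max k (i + 1))
      obtain ⟨z, hzG, hzC, hzR⟩ := hG (max (max m (i + 1)) n') x R hR
      have h2 := hm ⟨z, hzG⟩ (Cyl_sub_Nb m _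
        (Cyl_anti ((le_max_left _ _).trans (le_max_left _ _)) _ hzC))
      have h3 := h2 i (lt_of_lt_of_le (Nat.lt_succ_self _) (le_max_right _ _))
      have hzC' : z ∈ Cyl n' d' := fun j hj => by
        rw [hzC j (lt_of_lt_of_le hj (le_max_right _ _))]
        exact hx j hj
      rw [h1 ⟨z, hzG⟩ hzC' hzR] at h3
      simp only [Pi.add_apply, Pi.smul_apply, smul_eq_mul] at h3
      rw [hzC i (lt_of_lt_of_le (Nat.lt_succ_self _) ((le_max_right _ _).trans (le_max_left _ _)))] at h3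
      exact ⟨h3.1, h3.2.trans_le (by linarith [one_div_anti (le_max_left k (i + 1))])⟩

theorem exists_disjoint {u w : V} (h : u ≠ w) : ∃ n, ∀ z, z ∈ Nb n u → z ∉ Nb n w := by
  obtain ⟨i, hi⟩ := Function.ne_iff.1 h
  rcases lt_or_gt_of_ne hi with hlt | hlt
  · obtain ⟨k, hk⟩ := exists_one_div_lt (sub_pos.2 hlt)
    refine ⟨max k (i + 1), fun z h1 h2 => ?_⟩
    have h3 := h1 i (lt_of_lt_of_le (Nat.lt_succ_self _) (le_max_right _ _))
    have h4 := h2 i (lt_of_lt_of_le (Nat.lt_succ_self _) (le_max_right _ _))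
    linarith [one_div_anti (le_max_left k (i + 1)), h3.2, h4.1]
  · obtain ⟨k, hk⟩ := exists_one_div_lt (sub_pos.2 hlt)
    refine ⟨max k (i + 1), fun z h1 h2 => ?_⟩
    have h3 := h1 i (lt_of_lt_of_le (Nat.lt_succ_self _) (le_max_right _ _))
    have h4 := h2 i (lt_of_lt_of_le (Nat.lt_succ_self _) (le_max_right _ _))
    linarith [one_div_anti (le_max_left k (i + 1)), h3.1, h4.2]

theorem add_mem_Nb {n : ℕ} {u z : V} (h : z ∈ Nb n u) (c : V) : z + c ∈ Nb n (u + c) := by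
  intro i hi
  obtain ⟨h1, h2⟩ := h i hi
  simp only [Pi.add_apply]
  exact ⟨by linarith, by linarith⟩

theorem affine₂ {G : Submodule ℚ V} (hD : D ≤ G) (hG : Big G) (hK : Kill G) (m : G → G → G)
    (hm1 : ∀ a, TC (m a)) (hm2 : ∀ x, TC fun a => m a x) (N1 : ℕ) (D1 : V) (N2 : ℕ) (D2 : V) :
    ∃ (n1 : ℕ) (d1 : V) (n2 : ℕ) (d2 : V) (p q : ℚ) (c : G), N1 ≤ n1 ∧ d1 ∈ Cyl N1 D1 ∧
      N2 ≤ n2 ∧ d2 ∈ Cyl N2 D2 ∧ 0 ≤ p ∧ 0 ≤ q ∧
      ∀ a x : G, (a : V) ∈ Cyl n1 d1 → (x : V) ∈ Cyl n2 d2 → m a x = p • a + q • x + c := by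
  classical
  let T : ℕ × D × ℚ → G → Prop := fun j a =>
    ∀ x x' : G, (x : V) ∈ Cyl j.1 j.2.1 → (x' : V) ∈ Cyl j.1 j.2.1 →
      m a x = m a x' + j.2.2 • (x - x')
  let J : ℕ × D × ℚ → Prop := fun j => N2 ≤ j.1 ∧ (j.2.1 : V) ∈ Cyl N2 D2 ∧ 0 ≤ j.2.2
  have hT : ∀ a, ∃ j, J j ∧ T j a := by
    intro a
    obtain ⟨n', d', q, g, hn, hd, hq, h⟩ := affine hD hG hK (m a) (hm1 a) N2 D2
    refine ⟨(n', ⟨trunc n' d', trunc_mem_D _ _⟩, q), ⟨hn, ?_, hq⟩, ?_⟩
    · intro i hi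
      exact (trunc_mem_Cyl n' d' i (lt_of_lt_of_le hi hn)).trans (hd i hi)
    · intro x x' hx hx'
      have e1 : (x : V) ∈ Cyl n' d' := fun i hi => (hx i hi).trans (trunc_mem_Cyl n' d' i hi)
      have e2 : (x' : V) ∈ Cyl n' d' := fun i hi => (hx' i hi).trans (trunc_mem_Cyl n' d' i hi)
      rw [h x e1, h x' e2, smul_sub]
      abel
  have hclosed : ∀ j a, ¬ T j a → ∃ k, ∀ a' : G, (a' : V) ∈ Cyl k a → ¬ T j a' := by
    intro j a ha
    simp only [T] at ha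
    push Not at ha
    obtain ⟨x, x', hx, hx', hne⟩ := ha
    have hne' : (m a x : V) ≠ (m a x' + j.2.2 • (x - x') : G) := fun h => hne (Subtype.ext h)
    obtain ⟨n, hn⟩ := exists_disjoint hne'
    obtain ⟨M1, hM1⟩ := hm2 x a n
    obtain ⟨M2, hM2⟩ := hm2 x' a n
    refine ⟨max M1 M2, fun a' ha' hT' => ?_⟩
    have h1 := hM1 a' (Cyl_sub_Nb _ _ (Cyl_anti (le_max_left _ _) _ ha'))
    have h2 := hM2 a' (Cyl_sub_Nb _ _ (Cyl_anti (le_max_right _ _) _ ha'))
    have h3 := add_mem_Nb h2 ((j.2.2 • (x - x') : G) : V)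
    apply hn _ h1
    have h4 := hT' x x' hx hx'
    show ((m a' x : G) : V) ∈ _
    rw [h4]
    exact h3
  have hex : ∃ j, J j ∧ ∃ n1 d1, N1 ≤ n1 ∧ d1 ∈ Cyl N1 D1 ∧ ∀ a : G, (a : V) ∈ Cyl n1 d1 → T j a := by
    by_contra hcon
    push Not at hcon
    let O : ℕ × D × ℚ → Set V := fun j => {v | J j → v ∈ Cyl N1 D1 →
      ∃ k, ∀ a : G, (a : V) ∈ Cyl k v → ¬ T j a}
    have hO : ∀ j, O j ∈ RS := by
      intro j
      apply residual_of_dense_open
      · rw [isOpen_iff_mem_nhds]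
        intro v hv
        by_cases hJ : J j
        · by_cases hvC : v ∈ Cyl N1 D1
          · obtain ⟨k, hk⟩ := hv hJ hvC
            refine Filter.mem_of_superset ((isOpen_Cyl k v).mem_nhds (mem_Cyl_self k v)) ?_
            intro w hw _ _
            refine ⟨k, fun a ha => hk a fun i hi => ?_⟩
            rw [ha i hi, hw i hi]
          · refine Filter.mem_of_superset ((isClosed_Cyl N1 D1).isOpen_compl.mem_nhds hvC) ?_
            intro w hw _ hw'
            exact absurd hw' hw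
        · exact Filter.univ_mem' fun w h => absurd h hJ
      · rw [dense_iff_inter_open]
        intro U hU ⟨v, hv⟩
        obtain ⟨k, hk⟩ := exists_Cyl hU hv
        by_cases hJ : J j
        · by_cases hvC : v ∈ Cyl N1 D1
          · obtain ⟨a, ha, haT⟩ := hcon j hJ (max k N1) v (le_max_right _ _) hvC
            refine ⟨a, hk (Cyl_anti (le_max_left _ _) _ ha), fun _ _ => ?_⟩
            exact hclosed j a haT
          · exact ⟨v, hv, fun _ h => absurd h hvC⟩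
        · exact ⟨v, hv, fun h => absurd h hJ⟩
    have : CountableInterFilter RS := inferInstanceAs (CountableInterFilter (residual V))
    have hO' : (⋂ j, O j) ∈ RS := countable_iInter_mem.2 hO
    obtain ⟨a, haG, haC, haO⟩ := hG N1 D1 _ hO'
    obtain ⟨j, hJ, hTj⟩ := hT ⟨a, haG⟩
    obtain ⟨k, hk⟩ := mem_iInter.1 haO j hJ haC
    exact hk ⟨a, haG⟩ (mem_Cyl_self k a) hTj
  obtain ⟨⟨n2, d2, q⟩, ⟨hJ1, hJ2, hJ3⟩, n1', d1', hn1', hd1', hTj⟩ := hex
  obtain ⟨x0, hx0G, hx0C, -⟩ := hG n2 d2 Set.univ Filter.univ_mem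
  obtain ⟨n1, d1, p, c, hn1, hd1, hp, h⟩ :=
    affine hD hG hK (fun a => m a ⟨x0, hx0G⟩) (hm2 _) n1' d1'
  refine ⟨n1, d1, n2, d2, p, q, c - q • ⟨x0, hx0G⟩, hn1'.trans hn1, fun i hi => ?_, hJ1, hJ2, hp, hJ3,
    fun a x ha hx => ?_⟩
  · rw [hd1 i (lt_of_lt_of_le hi hn1')]
    exact hd1' i hi
  · have ha' : (a : V) ∈ Cyl n1' d1' := fun i hi => by
      rw [ha i (lt_of_lt_of_le hi hn1)]
      exact hd1 i hi
    have h1 := hTj a ha' x ⟨x0, hx0G⟩ hx hx0C
    have h2 : m a ⟨x0, hx0G⟩ = p • a + c := h a ha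
    rw [h1, h2, smul_sub]
    abel

/-- two different points of `G` in a cylinder -/
theorem exists_two {G : Submodule ℚ V} (hG : Big G) (n : ℕ) (d : V) :
    ∃ a b : G, (a : V) ∈ Cyl n d ∧ (b : V) ∈ Cyl n d ∧ a ≠ b := by
  obtain ⟨a, haG, haC, -⟩ := hG n d Set.univ Filter.univ_mem
  obtain ⟨b, hbG, hbC, -⟩ := hG (n + 1) (fun i => if i = n then a n + 1 else a i) Set.univ
    Filter.univ_mem
  refine ⟨⟨a, haG⟩, ⟨b, hbG⟩, haC, fun i hi => ?_, fun hab => ?_⟩
  · show b i = d i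
    rw [hbC i (hi.trans (Nat.lt_succ_self n))]
    simp only [if_neg hi.ne]
    exact haC i hi
  · have h1 : a = b := congrArg Subtype.val hab
    have h2 := hbC n (Nat.lt_succ_self n)
    simp only [if_true] at h2
    rw [← h1] at h2
    linarith

theorem no_group {G : Submodule ℚ V} (hD : D ≤ G) (hG : Big G) (hK : Kill G) (m k : G → G → G)
    (hm1 : ∀ a, TC (m a)) (hm2 : ∀ x, TC fun a => m a x)
    (hk1 : ∀ a, TC (k a)) (hk2 : ∀ x, TC fun a => k a x)
    (hmk : ∀ a z, m a (k a z) = z) (hi1 : ∀ a, Function.Injective (k a))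
    (hi2 : ∀ z, Function.Injective fun a => k a z) : False := by
  obtain ⟨n1, d1, n2, d2, p', q', c', -, -, -, -, hp', hq', hk⟩ :=
    affine₂ hD hG hK k hk1 hk2 0 0 0 0
  obtain ⟨a0, a1, ha0, ha1, haa⟩ := exists_two hG (max n1 n2) d1
  obtain ⟨z0, z1, hz0, hz1, hzz⟩ := exists_two hG (max n1 n2) d2
  have ha0' := Cyl_anti (le_max_left n1 n2) _ ha0
  have ha1' := Cyl_anti (le_max_left n1 n2) _ ha1
  have hz0' := Cyl_anti (le_max_right n1 n2) _ hz0
  have hz1' := Cyl_anti (le_max_right n1 n2) _ hz1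
  have hq0 : q' ≠ 0 := by
    rintro rfl
    apply hzz
    apply hi1 a0
    rw [hk a0 z0 ha0' hz0', hk a0 z1 ha0' hz1', zero_smul, zero_smul]
  have hp0 : p' ≠ 0 := by
    rintro rfl
    apply haa
    apply hi2 z0
    simp only
    rw [hk a0 z0 ha0' hz0', hk a1 z0 ha1' hz0', zero_smul, zero_smul]
  set N := max n1 n2 with hN
  obtain ⟨n3, d3, n4, d4, p, q, c, hn3, hd3, hn4, hd4, hp, hq, hm⟩ :=
    affine₂ hD hG hK m hm1 hm2 N (a0 : V) N ((k a0 z0 : G) : V)
  obtain ⟨a, b, ha, hb, hab⟩ := exists_two hG n3 d3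
  obtain ⟨y, -, hy, -, -⟩ := exists_two hG n4 d4
  have key : ∀ a : G, (a : V) ∈ Cyl n3 d3 →
      p • a + q • y + c = q'⁻¹ • (y - p' • a - c') := by
    intro a ha
    have haN : (a : V) ∈ Cyl N (a0 : V) := fun i hi => by
      rw [ha i (lt_of_lt_of_le hi hn3)]
      exact hd3 i hi
    have hyN : (y : V) ∈ Cyl N ((k a0 z0 : G) : V) := fun i hi => by
      rw [hy i (lt_of_lt_of_le hi hn4)]
      exact hd4 i hi
    have haC : (a : V) ∈ Cyl n1 d1 := fun i hi => by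
      rw [haN i (lt_of_lt_of_le hi (le_max_left _ _))]
      exact ha0' i hi
    set z : G := q'⁻¹ • (y - p' • a - c') with hz
    have hzC : (z : V) ∈ Cyl n2 d2 := by
      intro i hi
      have hiN : i < N := lt_of_lt_of_le hi (le_max_right _ _)
      rw [← hz0' i hi]
      have h1 : (z : V) i = q'⁻¹ * ((y : V) i - p' * (a : V) i - (c' : V) i) := rfl
      have h2 : ((k a0 z0 : G) : V) i = p' * (a0 : V) i + q' * (z0 : V) i + (c' : V) i := by
        rw [hk a0 z0 ha0' hz0']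
        rfl
      rw [h1, hyN i hiN, haN i hiN, h2]
      field_simp
      ring
    have h1 : k a z = y := by
      rw [hk a z haC hzC, hz, smul_smul, mul_inv_cancel₀ hq0, one_smul]
      abel
    have h2 := hmk a z
    rw [h1, hm a y ha hy] at h2
    exact h2
  have e1 := key a ha
  have e2 := key b hb
  have hne : (a : V) ≠ b := fun h => hab (Subtype.ext h)
  obtain ⟨i, hi⟩ := Function.ne_iff.1 hne
  have f1 : p * (a : V) i + q * (y : V) i + (c : V) i =
      q'⁻¹ * ((y : V) i - p' * (a : V) i - (c' : V) i) :=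
    congrArg (fun v : G => (v : V) i) e1
  have f2 : p * (b : V) i + q * (y : V) i + (c : V) i =
      q'⁻¹ * ((y : V) i - p' * (b : V) i - (c' : V) i) :=
    congrArg (fun v : G => (v : V) i) e2
  have f3 : (p + q'⁻¹ * p') * ((a : V) i - (b : V) i) = 0 := by linear_combination f1 - f2
  have f4 : p + q'⁻¹ * p' ≠ 0 := by
    have g1 : 0 < q'⁻¹ * p' :=
      mul_pos (inv_pos.2 (lt_of_le_of_ne hq' hq0.symm)) (lt_of_le_of_ne hp' hp0.symm)
    linarith
  rcases mul_eq_zero.1 f3 with h | h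
  · exact f4 h
  · exact hi (sub_eq_zero.1 h)

end Pool.Agent.W642.RP
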