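import Mathlib

set_option autoImplicit false

/-!
A transfinite construction of a rational subspace which meets many large sets and which is not
mapped into itself by many relations.
-/

open Cardinal Set Submodule

namespace Pool.Agent.W642.RP

variable {V : Type} [AddCommGroup V] [Module ℚ V]

theorem mk_span_lt (s : Set V) (hs : #s < 𝔠) : #(span ℚ s) < 𝔠 := by
  have h1 : #(span ℚ s) ≤ #(s →₀ ℚ) := by
    have h2 : LinearMap.range (Finsupp.linearCombination ℚ (Subtype.val : s → V)) = span ℚ s := by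
      rw [Finsupp.range_linearCombination, Subtype.range_coe]
    rw [← h2]
    exact mk_range_le
  refine h1.trans_lt ?_
  rcases isEmpty_or_nonempty s with h | h
  · have : Subsingleton (s →₀ ℚ) := inferInstance
    exact (le_one_iff_subsingleton.2 this).trans_lt (one_lt_aleph0.trans aleph0_lt_continuum)
  · rw [mk_finsupp_of_infinite']
    exact max_lt hs (by simpa using aleph0_lt_continuum)

theorem mk_sup_lt {S : Submodule ℚ V} (hS : #S < 𝔠) (a : V) : #(S ⊔ span ℚ {a} : Submodule ℚ V) < 𝔠 := by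
  have h : S ⊔ span ℚ {a} = span ℚ ((S : Set V) ∪ {a}) := by
    rw [span_union, span_eq]
  rw [h]
  apply mk_span_lt
  refine (mk_union_le _ _).trans_lt ?_
  refine add_lt_of_lt aleph0_le_continuum hS ?_
  rw [mk_singleton]
  exact one_lt_aleph0.trans aleph0_lt_continuum

theorem exists_notMem {S : Submodule ℚ V} (hS : #S < 𝔠) {P : Set V} (hP : 𝔠 ≤ #P) :
    ∃ a ∈ P, a ∉ S := by
  by_contra h
  push Not at h
  have h1 : #P ≤ #S := mk_le_mk_of_subset h
  exact absurd (hP.trans h1) (not_le.2 hS)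

theorem step (hV : 𝔠 ≤ #V) {S : Submodule ℚ V} (hS : #S < 𝔠) (P : Set V) (K : Set (V × V)) :
    ∃ t : V × V × V, t.1 ∉ S ∧ (𝔠 ≤ #P → t.1 ∈ P) ∧
      (t.2.1 = 0 ∨ t.2.1 ∉ S ⊔ span ℚ {t.1}) ∧
      t.2.2 ∉ (S ⊔ span ℚ {t.1}) ⊔ span ℚ {t.2.1} ∧
      (t.2 ∈ K ∨ ∀ x y, (x, y) ∈ K → x ∉ S ⊔ span ℚ {t.1} →
        y ∈ (S ⊔ span ℚ {t.1}) ⊔ span ℚ {x}) := by
  have hV' : 𝔠 ≤ #(univ : Set V) := by rwa [mk_univ]
  obtain ⟨a, ha, haP⟩ : ∃ a, a ∉ S ∧ (𝔠 ≤ #P → a ∈ P) := by
    by_cases hP : 𝔠 ≤ #P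
    · obtain ⟨a, h1, h2⟩ := exists_notMem hS hP
      exact ⟨a, h2, fun _ => h1⟩
    · obtain ⟨a, -, h2⟩ := exists_notMem hS hV'
      exact ⟨a, h2, fun h => absurd h hP⟩
  by_cases hK : ∃ x y, (x, y) ∈ K ∧ x ∉ S ⊔ span ℚ {a} ∧ y ∉ (S ⊔ span ℚ {a}) ⊔ span ℚ {x}
  · obtain ⟨x, y, h1, h2, h3⟩ := hK
    exact ⟨(a, x, y), ha, haP, Or.inr h2, h3, Or.inl h1⟩
  · push Not at hK
    obtain ⟨y, -, hy⟩ := exists_notMem (mk_sup_lt (mk_sup_lt hS a) 0) hV'
    exact ⟨(a, 0, y), ha, haP, Or.inl rfl, hy, Or.inr fun x y h1 h2 => hK x y h1 h2⟩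

theorem transfinite {I : Type} [LinearOrder I] [WellFoundedLT I] (hI : ∀ i : I, #(Iio i) < 𝔠)
    (hV : 𝔠 ≤ #V) (D : Submodule ℚ V) (hD : #D < 𝔠) (P : I → Set V) (K : I → Set (V × V)) :
    ∃ G : Submodule ℚ V, D ≤ G ∧ (∀ i, 𝔠 ≤ #(P i) → ∃ a ∈ P i, a ∈ G) ∧
      ∀ i, (∃ x y, (x, y) ∈ K i ∧ x ∈ G ∧ y ∉ G) ∨
        ∃ S : Submodule ℚ V, #S < 𝔠 ∧ ∀ x y, (x, y) ∈ K i → x ∉ S → ∃ q : ℚ, y - q • x ∈ S := by
  classical
  let gen : (i : I) → ((j : I) → j < i → V × V × V) → Set V := fun i g =>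
    (D : Set V) ∪ {v | ∃ j, ∃ h : j < i, v = (g j h).1 ∨ v = (g j h).2.1 ∨ v = (g j h).2.2}
  let F : (i : I) → ((j : I) → j < i → V × V × V) → V × V × V := fun i g =>
    if h : #(span ℚ (gen i g)) < 𝔠 then (step hV h (P i) (K i)).choose else 0
  let t : I → V × V × V := (wellFounded_lt (α := I)).fix F
  have ht : ∀ i, t i = F i fun j _ => t j := fun i => WellFounded.fix_eq _ _ _
  let T : I → Submodule ℚ V := fun i =>
    span ℚ ((D : Set V) ∪ {v | ∃ j, ∃ _ : j < i, v = (t j).1 ∨ v = (t j).2.1 ∨ v = (t j).2.2})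
  have hTc : ∀ i, #(T i) < 𝔠 := by
    intro i
    apply mk_span_lt
    refine (mk_union_le _ _).trans_lt ?_
    refine add_lt_of_lt aleph0_le_continuum hD ?_
    have h1 : {v | ∃ j, ∃ _ : j < i, v = (t j).1 ∨ v = (t j).2.1 ∨ v = (t j).2.2} ⊆
        ((fun j => (t j).1) '' Iio i ∪ (fun j => (t j).2.1) '' Iio i) ∪
          (fun j => (t j).2.2) '' Iio i := by
      rintro v ⟨j, hj, h | h | h⟩
      · exact Or.inl (Or.inl ⟨j, hj, h.symm⟩)
      · exact Or.inl (Or.inr ⟨j, hj, h.symm⟩)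
      · exact Or.inr ⟨j, hj, h.symm⟩
    refine (mk_le_mk_of_subset h1).trans_lt ?_
    refine (mk_union_le _ _).trans_lt (add_lt_of_lt aleph0_le_continuum ?_ ?_)
    · refine (mk_union_le _ _).trans_lt (add_lt_of_lt aleph0_le_continuum ?_ ?_)
      · exact mk_image_le.trans_lt (hI i)
      · exact mk_image_le.trans_lt (hI i)
    · exact mk_image_le.trans_lt (hI i)
  have hspec : ∀ i, (t i).1 ∉ T i ∧ (𝔠 ≤ #(P i) → (t i).1 ∈ P i) ∧
      ((t i).2.1 = 0 ∨ (t i).2.1 ∉ T i ⊔ span ℚ {(t i).1}) ∧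
      (t i).2.2 ∉ (T i ⊔ span ℚ {(t i).1}) ⊔ span ℚ {(t i).2.1} ∧
      ((t i).2 ∈ K i ∨ ∀ x y, (x, y) ∈ K i → x ∉ T i ⊔ span ℚ {(t i).1} →
        y ∈ (T i ⊔ span ℚ {(t i).1}) ⊔ span ℚ {x}) := by
    intro i
    have h1 : t i = (step hV (hTc i) (P i) (K i)).choose := by
      rw [ht]
      exact dif_pos (hTc i)
    rw [h1]
    exact (step hV (hTc i) (P i) (K i)).choose_spec
  let E : Set I → Submodule ℚ V := fun A =>
    span ℚ ((D : Set V) ∪ {v | ∃ j ∈ A, v = (t j).1 ∨ v = (t j).2.1})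
  have hEmono : ∀ A B : Set I, A ⊆ B → E A ≤ E B := by
    intro A B hAB
    apply span_mono
    apply union_subset_union_right
    rintro v ⟨j, hj, h⟩
    exact ⟨j, hAB hj, h⟩
  have hDE : ∀ A, D ≤ E A := fun A v hv => subset_span (Or.inl hv)
  have hDT : ∀ i, D ≤ T i := fun A v hv => subset_span (Or.inl hv)
  have hET : ∀ i, E (Iio i) ≤ T i := by
    intro i
    apply span_mono
    apply union_subset_union_right
    rintro v ⟨j, hj, h | h⟩
    · exact ⟨j, hj, Or.inl h⟩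
    · exact ⟨j, hj, Or.inr (Or.inl h)⟩
  have hyT : ∀ l i, l < i → (t l).2.2 ∈ T i := fun l i h =>
    subset_span (Or.inr ⟨l, h, Or.inr (Or.inr rfl)⟩)
  have hcomp : ∀ A : Set I, ∀ v ∈ E A, v ∈ D ∨ ∃ j ∈ A, v ∈ E (Iic j) := by
    intro A v hv
    induction hv using span_induction with
    | mem x hx =>
      rcases hx with hx | ⟨j, hj, h⟩
      · exact Or.inl hx
      · exact Or.inr ⟨j, hj, subset_span (Or.inr ⟨j, le_refl j, h⟩)⟩
    | zero => exact Or.inl D.zero_mem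
    | add x y _ _ hx hy =>
      rcases hx with hx | ⟨j, hj, hx⟩ <;> rcases hy with hy | ⟨k, hk, hy⟩
      · exact Or.inl (D.add_mem hx hy)
      · exact Or.inr ⟨k, hk, (E _).add_mem (hDE _ hx) hy⟩
      · exact Or.inr ⟨j, hj, (E _).add_mem hx (hDE _ hy)⟩
      · rcases le_total j k with h | h
        · exact Or.inr ⟨k, hk, (E _).add_mem (hEmono _ _ (Iic_subset_Iic.2 h) hx) hy⟩
        · exact Or.inr ⟨j, hj, (E _).add_mem hx (hEmono _ _ (Iic_subset_Iic.2 h) hy)⟩
    | smul c x _ hx =>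
      rcases hx with hx | ⟨j, hj, hx⟩
      · exact Or.inl (D.smul_mem c hx)
      · exact Or.inr ⟨j, hj, (E _).smul_mem c hx⟩
  have hstep : ∀ j, E (Iic j) ≤ (E (Iio j) ⊔ span ℚ {(t j).1}) ⊔ span ℚ {(t j).2.1} := by
    intro j
    apply span_le.2
    rintro v (hv | ⟨k, hk, h⟩)
    · exact mem_sup_left (mem_sup_left (hDE _ hv))
    · rcases lt_or_eq_of_le (mem_Iic.1 hk) with hk | rfl
      · exact mem_sup_left (mem_sup_left (subset_span (Or.inr ⟨k, hk, h⟩)))
      · rcases h with rfl | rfl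
        · exact mem_sup_left (mem_sup_right (mem_span_singleton_self _))
        · exact mem_sup_right (mem_span_singleton_self _)
  have hmain : ∀ j l, (t l).2.2 ∉ E (Iic j) := by
    intro j
    induction j using WellFoundedLT.induction with
    | ind j ih =>
      intro l hl
      rcases lt_trichotomy j l with h | h | h
      · have h1 : (t l).2.2 ∈ T l := hET l (hEmono _ _ (fun k hk => lt_of_le_of_lt hk h) hl)
        exact (hspec l).2.2.2.1 (mem_sup_left (mem_sup_left h1))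
      · subst h
        have h1 := hstep j hl
        exact (hspec j).2.2.2.1 (sup_le_sup_right (sup_le_sup_right (hET j) _) _ h1)
      · obtain ⟨u, hu, w, hw, huw⟩ := mem_sup.1 (hstep j hl)
        obtain ⟨e, he, w', hw', hew⟩ := mem_sup.1 hu
        obtain ⟨b, rfl⟩ := mem_span_singleton.1 hw
        obtain ⟨a, rfl⟩ := mem_span_singleton.1 hw'
        have he' : e ∈ T j := hET j he
        have hy := hyT l j h
        have h1 : b • (t j).2.1 = 0 := by
          rcases (hspec j).2.2.1 with h2 | h2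
          · rw [h2, smul_zero]
          · by_contra h3
            have hb : b ≠ 0 := fun h4 => h3 (by rw [h4, zero_smul])
            apply h2
            have h4 : b • (t j).2.1 ∈ T j ⊔ span ℚ {(t j).1} := by
              have h5 : b • (t j).2.1 = (t l).2.2 - e - a • (t j).1 := by
                rw [← huw, ← hew]; abel
              rw [h5]
              refine sub_mem (sub_mem (mem_sup_left hy) (mem_sup_left he')) ?_
              exact mem_sup_right (smul_mem _ _ (mem_span_singleton_self _))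
            have h6 := smul_mem _ b⁻¹ h4
            rwa [smul_smul, inv_mul_cancel₀ hb, one_smul] at h6
        have h2 : a • (t j).1 = 0 := by
          by_contra h3
          have ha : a ≠ 0 := fun h4 => h3 (by rw [h4, zero_smul])
          apply (hspec j).1
          have h4 : a • (t j).1 ∈ T j := by
            have h5 : a • (t j).1 = (t l).2.2 - e := by
              rw [← huw, ← hew, h1]; abel
            rw [h5]
            exact sub_mem hy he'
          have h6 := smul_mem _ a⁻¹ h4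
          rwa [smul_smul, inv_mul_cancel₀ ha, one_smul] at h6
        have h3 : (t l).2.2 = e := by
          rw [← huw, ← hew, h1, h2]; abel
        have h4 := hcomp _ _ he
        rw [← h3] at h4
        rcases h4 with h4 | ⟨k, hk, h4⟩
        · exact (hspec l).2.2.2.1 (mem_sup_left (mem_sup_left (hDT l h4)))
        · exact ih k hk l h4
  refine ⟨E univ, hDE _, fun i hi => ⟨(t i).1, (hspec i).2.1 hi,
    subset_span (Or.inr ⟨i, mem_univ i, Or.inl rfl⟩)⟩, fun i => ?_⟩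
  rcases (hspec i).2.2.2.2 with h | h
  · refine Or.inl ⟨(t i).2.1, (t i).2.2, h, subset_span (Or.inr ⟨i, mem_univ i, Or.inr rfl⟩), ?_⟩
    intro h1
    rcases hcomp _ _ h1 with h2 | ⟨j, -, h2⟩
    · exact (hspec i).2.2.2.1 (mem_sup_left (mem_sup_left (hDT i h2)))
    · exact hmain j i h2
  · refine Or.inr ⟨T i ⊔ span ℚ {(t i).1}, mk_sup_lt (hTc i) _, fun x y hxy hx => ?_⟩
    obtain ⟨u, hu, w, hw, huw⟩ := mem_sup.1 (h x y hxy hx)
    obtain ⟨b, rfl⟩ := mem_span_singleton.1 hw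
    refine ⟨b, ?_⟩
    rw [← huw]
    simpa using hu

end Pool.Agent.W642.RP
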