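import Mathlib
import Pool.Agent.W642.RP.Generic
import Pool.Agent.W642.RP.Trans

set_option autoImplicit false

open Set Filter Topology Cardinal

namespace Pool.Agent.W642.RP

attribute [local instance 10000] tQ dQ bQ

theorem mk_V : #V = 𝔠 := by
  simp

theorem mk_meas : #{t : Set V // MeasurableSet t} ≤ 𝔠 := by
  obtain ⟨b, hb, hbe⟩ := MeasurableSpace.CountablyGenerated.isCountablyGenerated (α := V)
  rw [hbe]
  exact MeasurableSpace.cardinal_measurableSet_le_continuum
    (hb.le_aleph0.trans aleph0_le_continuum)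

theorem mk_I0 : #((ℕ × V × {t : Set V // MeasurableSet t}) × (D → V)) ≤ 𝔠 := by
  have h1 : #(D → V) ≤ 𝔠 := by
    rw [← power_def, mk_V]
    refine (power_le_power_left continuum_ne_zero (mk_le_aleph0 (α := D))).trans ?_
    simp
  rw [mk_prod, mk_prod, mk_prod]
  simp only [lift_id]
  refine (mul_le_mul' (mul_le_mul' (mk_le_aleph0 (α := ℕ)) (mul_le_mul' mk_V.le mk_meas)) h1).trans ?_
  simp

theorem exists_G : ∃ G : Submodule ℚ V, D ≤ G ∧ Big G ∧
    ∀ s : D → V, (∃ x y, (x, y) ∈ K s ∧ x ∈ G ∧ y ∉ G) ∨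
      ∃ S : Submodule ℚ V, #S < 𝔠 ∧ ∀ x y, (x, y) ∈ K s → x ∉ S → ∃ q : ℚ, y - q • x ∈ S := by
  classical
  have hI : #(𝔠 : Cardinal.{0}).ord.ToType = 𝔠 := mk_ord_toType _
  have hI0 : Nonempty ((ℕ × V × {t : Set V // MeasurableSet t}) × (D → V)) :=
    ⟨((0, 0, ⟨∅, MeasurableSet.empty⟩), fun _ => 0)⟩
  obtain ⟨f⟩ : Nonempty (((ℕ × V × {t : Set V // MeasurableSet t}) × (D → V)) ↪
      (𝔠 : Cardinal.{0}).ord.ToType) := by
    have := mk_I0
    rw [← hI] at this
    exact this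
  have he : Function.Surjective (Function.invFun f) := Function.invFun_surjective f.injective
  obtain ⟨G, h1, h2, h3⟩ := transfinite (V := V) (I := (𝔠 : Cardinal.{0}).ord.ToType) (fun i => by
      have h := Cardinal.mk_Iio_lt (α := (𝔠 : Cardinal.{0}).ord.ToType) i (by simp)
      rwa [hI] at h) mk_V.ge D
    ((mk_le_aleph0 (α := D)).trans_lt aleph0_lt_continuum)
    (fun i => Cyl (Function.invFun f i).1.1 (Function.invFun f i).1.2.1 ∩
      (Function.invFun f i).1.2.2.1) (fun i => K (Function.invFun f i).2)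
  refine ⟨G, h1, ?_, ?_⟩
  · intro n d R hR
    obtain ⟨t, htR, htG, htd⟩ := mem_residual.1 hR
    have htm : MeasurableSet t := htG.measurableSet
    have htR' : t ∈ RS := residual_of_dense_Gδ htG htd
    obtain ⟨i, hi⟩ := he ((n, d, ⟨t, htm⟩), fun _ => 0)
    obtain ⟨a, ha, haG⟩ := h2 i (by
      rw [hi]
      exact continuum_le_of_mem_RS htR' n d)
    rw [hi] at ha
    exact ⟨a, haG, ha.1, htR ha.2⟩
  · intro s
    obtain ⟨i, hi⟩ := he ((0, 0, ⟨∅, MeasurableSet.empty⟩), s)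
    have := h3 i
    rw [hi] at this
    exact this

end Pool.Agent.W642.RP
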