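import Mathlib
import Pool.Agent.W642.RP.Basic

set_option autoImplicit false

/-!
Corners of boxes with sides of length `1 / n!`.
-/

open Set

namespace Pool.Agent.W642.RP

/-- the corner of the box of level `n` which contains `y` -/
def c (n : ℕ) (y : V) : V := fun i =>
  if i < n then (⌊y i * (n.factorial : ℚ)⌋ : ℚ) / (n.factorial : ℚ) else 0

theorem fac_pos (n : ℕ) : (0 : ℚ) < (n.factorial : ℚ) := by exact_mod_cast n.factorial_pos

theorem c_lt {n i : ℕ} (h : i < n) (y : V) :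
    c n y i = (⌊y i * (n.factorial : ℚ)⌋ : ℚ) / (n.factorial : ℚ) := if_pos h

theorem c_ge {n i : ℕ} (h : n ≤ i) (y : V) : c n y i = 0 := if_neg (not_lt.2 h)

theorem c_mem_D (n : ℕ) (y : V) : c n y ∈ D := ⟨n, fun _ hi => c_ge hi y⟩

theorem c_zero_level (y : V) : c 0 y = 0 := by
  funext i
  exact c_ge (Nat.zero_le i) y

theorem c_zero (n : ℕ) : c n 0 = 0 := by
  funext i
  by_cases h : i < n
  · rw [c_lt h]; simp
  · rw [c_ge (not_lt.1 h)]; rfl

theorem fac_mul {n m : ℕ} (h : n ≤ m) : ∃ k : ℕ, 0 < k ∧ (m.factorial : ℚ) = n.factorial * k := by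
  obtain ⟨k, hk⟩ := Nat.factorial_dvd_factorial h
  refine ⟨k, ?_, by exact_mod_cast hk⟩
  rcases Nat.eq_zero_or_pos k with h0 | h0
  · rw [h0, mul_zero] at hk
    exact absurd hk (Nat.factorial_ne_zero m)
  · exact h0

theorem floor_mul_div (a : ℚ) {k : ℕ} (hk : 0 < k) : ⌊(⌊a * k⌋ : ℚ) / k⌋ = ⌊a⌋ := by
  have hk' : (0 : ℚ) < k := by exact_mod_cast hk
  rw [Int.floor_eq_iff]
  constructor
  · rw [le_div_iff₀ hk']
    have h1 : (⌊a⌋ * k : ℤ) ≤ ⌊a * k⌋ := by
      rw [Int.le_floor]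
      push_cast
      exact mul_le_mul_of_nonneg_right (Int.floor_le a) hk'.le
    exact_mod_cast h1
  · rw [div_lt_iff₀ hk']
    calc (⌊a * k⌋ : ℚ) ≤ a * k := Int.floor_le _
      _ < (⌊a⌋ + 1) * k := mul_lt_mul_of_pos_right (Int.lt_floor_add_one a) hk'

/-- coarser corners -/
theorem c_c_le {n m : ℕ} (h : n ≤ m) (y : V) : c n (c m y) = c n y := by
  funext i
  by_cases hi : i < n
  · rw [c_lt hi, c_lt hi, c_lt (lt_of_lt_of_le hi h)]
    obtain ⟨k, hk, hmk⟩ := fac_mul h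
    have h1 := fac_pos n
    have hk' : (0 : ℚ) < k := by exact_mod_cast hk
    have h2 : (⌊y i * (m.factorial : ℚ)⌋ : ℚ) / (m.factorial : ℚ) * (n.factorial : ℚ) =
        (⌊y i * (n.factorial : ℚ) * k⌋ : ℚ) / k := by
      rw [hmk, ← mul_assoc]
      field_simp
    rw [h2, floor_mul_div _ hk]
  · rw [c_ge (not_lt.1 hi), c_ge (not_lt.1 hi)]

theorem c_mono {n m : ℕ} (h : n ≤ m) {x y : V} (hxy : c m x = c m y) : c n x = c n y := by
  rw [← c_c_le h x, hxy, c_c_le h y]

/-- points which are corners of level `n` -/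
def L (n : ℕ) (w : V) : Prop := c n w = w

theorem L_iff {n : ℕ} {w : V} : L n w ↔
    (∀ i < n, ∃ z : ℤ, w i * (n.factorial : ℚ) = z) ∧ ∀ i, n ≤ i → w i = 0 := by
  constructor
  · intro h
    refine ⟨fun i hi => ⟨⌊w i * (n.factorial : ℚ)⌋, ?_⟩, fun i hi => ?_⟩
    · have h1 := congrFun h i
      rw [c_lt hi, div_eq_iff (fac_pos n).ne'] at h1
      exact h1.symm
    · rw [← congrFun h i, c_ge hi]
  · rintro ⟨h1, h2⟩
    funext i
    by_cases hi : i < n
    · obtain ⟨z, hz⟩ := h1 i hi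
      rw [c_lt hi, hz, Int.floor_intCast, ← hz, mul_div_assoc, div_self (fac_pos n).ne', mul_one]
    · rw [c_ge (not_lt.1 hi), h2 i (not_lt.1 hi)]

theorem L_c (n : ℕ) (y : V) : L n (c n y) := c_c_le le_rfl y

theorem L_zero (n : ℕ) : L n 0 := c_zero n

theorem L_sub {n : ℕ} {a b : V} (ha : L n a) (hb : L n b) : L n (a - b) := by
  rw [L_iff] at *
  refine ⟨fun i hi => ?_, fun i hi => ?_⟩
  · obtain ⟨z, hz⟩ := ha.1 i hi
    obtain ⟨w, hw⟩ := hb.1 i hi
    refine ⟨z - w, ?_⟩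
    rw [Pi.sub_apply, sub_mul, hz, hw]
    push_cast
    rfl
  · rw [Pi.sub_apply, ha.2 i hi, hb.2 i hi, sub_zero]

theorem L_mono {n m : ℕ} (h : n ≤ m) {a : V} (ha : L n a) : L m a := by
  rw [L_iff] at *
  refine ⟨fun i _ => ?_, fun i hi => ha.2 i (h.trans hi)⟩
  by_cases hi : i < n
  · obtain ⟨z, hz⟩ := ha.1 i hi
    obtain ⟨k, -, hmk⟩ := fac_mul h
    refine ⟨z * k, ?_⟩
    rw [hmk, ← mul_assoc, hz]
    push_cast
    rfl
  · refine ⟨0, ?_⟩
    rw [ha.2 i (not_lt.1 hi)]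
    simp

theorem c_add {n : ℕ} {w : V} (hw : L n w) (r : V) : c n (r + w) = c n r + w := by
  funext i
  by_cases hi : i < n
  · obtain ⟨z, hz⟩ := (L_iff.1 hw).1 i hi
    rw [Pi.add_apply, c_lt hi, c_lt hi, Pi.add_apply, add_mul, hz, Int.floor_add_intCast]
    have h1 := fac_pos n
    have h2 : w i = z / (n.factorial : ℚ) := by rw [← hz]; field_simp
    rw [h2]
    push_cast
    field_simp
  · rw [Pi.add_apply, c_ge (not_lt.1 hi), c_ge (not_lt.1 hi), (L_iff.1 hw).2 i (not_lt.1 hi),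
      add_zero]

theorem c_sub {n : ℕ} {w : V} (hw : L n w) (r : V) : c n (r - w) = c n r - w := by
  have h := c_add hw (r - w)
  rw [sub_add_cancel] at h
  rw [h, add_sub_cancel_right]

/-- every box of level `n` contains a basic neighbourhood -/
theorem exists_Nb (n : ℕ) (x : V) : ∃ m, ∀ y ∈ Nb m x, c n y = c n x := by
  have h1 : ∀ i, ∃ m : ℕ, 1 / ((m : ℚ) + 1) <
      ((⌊x i * (n.factorial : ℚ)⌋ : ℚ) + 1) / (n.factorial : ℚ) - x i := by
    intro i
    apply exists_one_div_lt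
    rw [sub_pos, lt_div_iff₀ (fac_pos n)]
    exact Int.lt_floor_add_one _
  choose m hm using h1
  refine ⟨max n ((Finset.range n).sup m), fun y hy => ?_⟩
  funext i
  by_cases hi : i < n
  · rw [c_lt hi, c_lt hi]
    obtain ⟨h2, h3⟩ := hy i (lt_of_lt_of_le hi (le_max_left _ _))
    have h4 : (1 : ℚ) / ((max n ((Finset.range n).sup m) : ℕ) + 1) ≤ 1 / ((m i : ℚ) + 1) :=
      one_div_anti ((Finset.le_sup (f := m) (Finset.mem_range.2 hi)).trans (le_max_right _ _))
    have h5 : ⌊y i * (n.factorial : ℚ)⌋ = ⌊x i * (n.factorial : ℚ)⌋ := by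
      rw [Int.floor_eq_iff]
      constructor
      · exact (Int.floor_le _).trans (mul_le_mul_of_nonneg_right h2 (fac_pos n).le)
      · have h6 := hm i
        rw [← lt_div_iff₀ (fac_pos n)]
        linarith
    rw [h5]
  · rw [c_ge (not_lt.1 hi), c_ge (not_lt.1 hi)]

theorem exists_int (q : ℚ) : ∀ n : ℕ, q.den ≤ n → ∃ z : ℤ, q * (n.factorial : ℚ) = z := by
  intro n hn
  obtain ⟨k, hk⟩ := Nat.dvd_factorial q.pos hn
  refine ⟨q.num * k, ?_⟩
  have h1 : q * q.den = q.num := Rat.mul_den_eq_num q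
  rw [hk]
  push_cast
  rw [← mul_assoc, h1]

/-- every basic neighbourhood contains a box -/
theorem exists_box (m : ℕ) (x : V) : ∃ n, ∀ y, c n y = c n x → y ∈ Nb m x := by
  set n := max (m + 1) ((Finset.range m).sup fun i => (x i).den) with hn
  refine ⟨n, fun y hy i hi => ?_⟩
  have hin : i < n := lt_of_lt_of_le (hi.trans (Nat.lt_succ_self m)) (le_max_left _ _)
  have h1 := congrFun hy i
  rw [c_lt hin, c_lt hin] at h1
  obtain ⟨z, hz⟩ := exists_int (x i) n
    ((Finset.le_sup (f := fun i => (x i).den) (Finset.mem_range.2 hi)).trans (le_max_right _ _))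
  have hp := fac_pos n
  have h2 : (⌊y i * (n.factorial : ℚ)⌋ : ℚ) = z := by
    rw [hz, Int.floor_intCast] at h1
    field_simp at h1
    exact h1
  have h3 := Int.floor_le (y i * (n.factorial : ℚ))
  have h4 := Int.lt_floor_add_one (y i * (n.factorial : ℚ))
  rw [h2, ← hz] at h3 h4
  constructor
  · exact le_of_mul_le_mul_right h3 hp
  · have h5 : y i < x i + 1 / (n.factorial : ℚ) := by
      rw [← mul_lt_mul_iff_left₀ hp, add_mul, one_div_mul_cancel hp.ne']
      exact h4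
    refine h5.trans_le ?_
    have h6 : (m : ℚ) + 1 ≤ (n.factorial : ℚ) := by
      have : m + 1 ≤ n.factorial := (le_max_left _ _).trans (Nat.self_le_factorial n)
      exact_mod_cast this
    have h7 : (1 : ℚ) / (n.factorial : ℚ) ≤ 1 / ((m : ℚ) + 1) :=
      one_div_le_one_div_of_le (by positivity) h6
    linarith

theorem eq_of_c {x y : V} (h : ∀ n, c n x = c n y) : x = y := by
  funext i
  have key : ∀ x y : V, (∀ n, c n x = c n y) → x i ≤ y i := by
    intro x y h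
    obtain ⟨n, hn⟩ := exists_box (i + 1) x
    exact (hn y (h n).symm i (Nat.lt_succ_self i)).1
  exact le_antisymm (key x y h) (key y x fun n => (h n).symm)

end Pool.Agent.W642.RP
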