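import Mathlib
import Pool.Agent.W642.RP.Corner

set_option autoImplicit false

/-!
The rectification of a subspace of rational sequences which contains the finitely supported ones.
-/

open Set

namespace Pool.Agent.W642.RP

attribute [local instance] Classical.propDecidable

/-- the level at which `x` and `y` are separated: they have the same corner of level `lev x y`
but not of the next level -/
noncomputable def lev (x y : V) : ℕ :=
  if h : ∃ n, c (n + 1) x ≠ c (n + 1) y then Nat.find h else 0

theorem lev_exists {x y : V} (h : x ≠ y) : ∃ n, c (n + 1) x ≠ c (n + 1) y := by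
  by_contra hcon
  push Not at hcon
  apply h
  apply eq_of_c
  intro n
  cases n with
  | zero => rw [c_zero_level, c_zero_level]
  | succ n => exact hcon n

theorem lev_ne {x y : V} (h : x ≠ y) : c (lev x y + 1) x ≠ c (lev x y + 1) y := by
  unfold lev
  rw [dif_pos (lev_exists h)]
  exact Nat.find_spec (lev_exists h)

theorem lev_eq {x y : V} : c (lev x y) x = c (lev x y) y := by
  by_cases h : ∃ n, c (n + 1) x ≠ c (n + 1) y
  · unfold lev
    rw [dif_pos h]
    rcases hn : Nat.find h with _ | n
    · rw [c_zero_level, c_zero_level]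
    · by_contra hne
      have := Nat.find_min h (m := n) (by omega)
      exact this hne
  · unfold lev
    rw [dif_neg h, c_zero_level, c_zero_level]

theorem lev_unique {x y : V} {n : ℕ} (h1 : c n x = c n y) (h2 : c (n + 1) x ≠ c (n + 1) y) :
    lev x y = n := by
  have hne : x ≠ y := fun h => h2 (by rw [h])
  apply le_antisymm
  · by_contra h
    push Not at h
    exact h2 (c_mono h lev_eq)
  · by_contra h
    push Not at h
    exact lev_ne hne (c_mono h h1)

theorem le_lev {x y : V} {n : ℕ} (h1 : c n x = c n y) (hne : x ≠ y) : n ≤ lev x y := by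
  by_contra h
  push Not at h
  exact lev_ne hne (c_mono h h1)

/-- the rectification -/
noncomputable def psi (x y : V) : V :=
  if x = y then 0 else
    y - c (lev x y) x + (if c (lev x y + 1) y = c (lev x y) x then
      c (lev x y + 1) x - c (lev x y) x else 0)

/-- the inverse of the rectification -/
noncomputable def theta (x z : V) : V :=
  if z = 0 then x else
    z + c (lev 0 z) x - (if c (lev 0 z + 1) z = c (lev 0 z + 1) x - c (lev 0 z) x then
      c (lev 0 z + 1) z else 0)

theorem psi_self (x : V) : psi x x = 0 := if_pos rfl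

theorem theta_zero (x : V) : theta x 0 = x := if_pos rfl

theorem psi_eq {x y : V} {n : ℕ} (h1 : c n x = c n y) (h2 : c (n + 1) x ≠ c (n + 1) y) :
    psi x y = y - c n x + (if c (n + 1) y = c n x then c (n + 1) x - c n x else 0) := by
  have hne : x ≠ y := fun h => h2 (by rw [h])
  unfold psi
  rw [if_neg hne, lev_unique h1 h2]

theorem theta_eq {x z : V} {n : ℕ} (h1 : c n z = 0) (h2 : c (n + 1) z ≠ 0) :
    theta x z = z + c n x - (if c (n + 1) z = c (n + 1) x - c n x then c (n + 1) z else 0) := by
  have hne : z ≠ 0 := fun h => h2 (by rw [h, c_zero])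
  have h3 : lev 0 z = n := lev_unique (by rw [c_zero, h1]) (by rw [c_zero]; exact h2.symm)
  unfold theta
  rw [if_neg hne, h3]

theorem L_c_succ (n : ℕ) (x : V) : L (n + 1) (c n x) := L_mono (Nat.le_succ n) (L_c n x)

theorem L_diff (n : ℕ) (x : V) : L (n + 1) (c (n + 1) x - c n x) :=
  L_sub (L_c _ _) (L_c_succ _ _)

theorem c_diff (n : ℕ) (x : V) : c n (c (n + 1) x - c n x) = 0 := by
  rw [c_sub (L_c n x), c_c_le (Nat.le_succ n), sub_self]

/-- corners of the value of the rectification -/
theorem c_psi {x y : V} {n : ℕ} (h1 : c n x = c n y) (h2 : c (n + 1) x ≠ c (n + 1) y) :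
    c n (psi x y) = 0 ∧ c (n + 1) (psi x y) =
      (if c (n + 1) y = c n x then c (n + 1) x - c n x else c (n + 1) y - c n x) ∧
      c (n + 1) (psi x y) ≠ 0 := by
  rw [psi_eq h1 h2]
  have h3 : c n (y - c n x) = 0 := by
    rw [c_sub (L_c n x), h1, sub_self]
  by_cases h : c (n + 1) y = c n x
  · rw [if_pos h, if_pos h]
    have h4 : c (n + 1) (y - c n x + (c (n + 1) x - c n x)) = c (n + 1) x - c n x := by
      rw [c_add (L_diff n x), c_sub (L_c_succ n x), h, sub_self, zero_add]
    refine ⟨?_, h4, ?_⟩
    · rw [← c_c_le (Nat.le_succ n), h4, c_diff]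
    · rw [h4, sub_ne_zero, ← h]
      exact h2
  · rw [if_neg h, if_neg h, add_zero]
    have h4 : c (n + 1) (y - c n x) = c (n + 1) y - c n x := c_sub (L_c_succ n x) y
    exact ⟨h3, h4, by rw [h4]; exact sub_ne_zero.2 h⟩

/-- corners of the value of the inverse of the rectification -/
theorem c_theta {x z : V} {n : ℕ} (h1 : c n z = 0) (h2 : c (n + 1) z ≠ 0) :
    c n x = c n (theta x z) ∧ c (n + 1) (theta x z) =
      (if c (n + 1) z = c (n + 1) x - c n x then c n x else c (n + 1) z + c n x) ∧
      c (n + 1) x ≠ c (n + 1) (theta x z) := by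
  rw [theta_eq h1 h2]
  by_cases h : c (n + 1) z = c (n + 1) x - c n x
  · rw [if_pos h, if_pos h]
    have h4 : c (n + 1) (z + c n x - c (n + 1) z) = c n x := by
      rw [c_sub (L_c _ _), c_add (L_c_succ n x)]
      abel
    refine ⟨?_, h4, ?_⟩
    · rw [← c_c_le (Nat.le_succ n) (z + _ - _), h4, c_c_le le_rfl]
    · rw [h4]
      intro h5
      rw [h5, sub_self] at h
      exact h2 h
  · rw [if_neg h, if_neg h, sub_zero]
    refine ⟨?_, c_add (L_c_succ n x) z, ?_⟩
    · rw [c_add (L_c n x), h1, zero_add]
    · rw [c_add (L_c_succ n x)]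
      intro h5
      exact h (by rw [h5, add_sub_cancel_right])

theorem theta_psi (x y : V) : theta x (psi x y) = y := by
  by_cases hxy : x = y
  · rw [hxy, psi_self, theta_zero]
  · have h1 := lev_eq (x := x) (y := y)
    have h2 := lev_ne hxy
    set n := lev x y
    obtain ⟨e1, e2, e3⟩ := c_psi h1 h2
    rw [theta_eq e1 e3, psi_eq h1 h2, ← psi_eq h1 h2, e2, psi_eq h1 h2]
    by_cases h : c (n + 1) y = c n x
    · simp only [if_pos h, if_true]
      abel
    · have h3 : ¬ (c (n + 1) y - c n x = c (n + 1) x - c n x) := fun h4 =>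
        h2 (sub_left_inj.1 h4).symm
      simp only [if_neg h, if_neg h3]
      abel

theorem psi_theta (x z : V) : psi x (theta x z) = z := by
  by_cases hz : z = 0
  · rw [hz, theta_zero, psi_self]
  · have h1 := lev_eq (x := 0) (y := z)
    have h2 := lev_ne (x := 0) (y := z) (Ne.symm hz)
    set n := lev 0 z
    rw [c_zero] at h1 h2
    obtain ⟨e1, e2, e3⟩ := c_theta (x := x) h1.symm h2.symm
    rw [psi_eq e1 e3, e2, theta_eq h1.symm h2.symm]
    by_cases h : c (n + 1) z = c (n + 1) x - c n x
    · simp only [if_pos h, if_true]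
      rw [h]
      abel
    · have h3 : ¬ (c (n + 1) z + c n x = c n x) := fun h4 =>
        h2.symm (by simpa using h4)
      simp only [if_neg h, if_neg h3]
      abel

theorem psi_mem {G : Submodule ℚ V} (hD : D ≤ G) {x y : V} (hy : y ∈ G) : psi x y ∈ G := by
  unfold psi
  split_ifs
  · exact G.zero_mem
  · exact G.add_mem (G.sub_mem hy (hD (c_mem_D _ _))) (G.sub_mem (hD (c_mem_D _ _)) (hD (c_mem_D _ _)))
  · exact G.add_mem (G.sub_mem hy (hD (c_mem_D _ _))) G.zero_mem

theorem theta_mem {G : Submodule ℚ V} (hD : D ≤ G) {x z : V} (hx : x ∈ G) (hz : z ∈ G) :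
    theta x z ∈ G := by
  unfold theta
  split_ifs
  · exact hx
  · exact G.sub_mem (G.add_mem hz (hD (c_mem_D _ _))) (hD (c_mem_D _ _))
  · exact G.sub_mem (G.add_mem hz (hD (c_mem_D _ _))) G.zero_mem

/-- adding a fixed vector is continuous, uniformly in the boxes -/
theorem exists_add (y v : V) (k : ℕ) : ∃ m, ∀ y', c m y' = c m y → c k (y' + v) = c k (y + v) := by
  obtain ⟨p, hp⟩ := exists_Nb k (y + v)
  obtain ⟨m, hm⟩ := exists_box p y
  refine ⟨m, fun y' hy' => hp _ ?_⟩
  intro i hi
  obtain ⟨h1, h2⟩ := hm y' hy' i hi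
  simp only [Pi.add_apply]
  exact ⟨by linarith, by linarith⟩

/-- continuity of the rectification -/
theorem psi_cont (x y : V) (k : ℕ) : ∃ m, ∀ x' y', c m x' = c m x → c m y' = c m y →
    c k (psi x' y') = c k (psi x y) := by
  by_cases hxy : x = y
  · subst hxy
    refine ⟨k, fun x' y' hx hy => ?_⟩
    rw [psi_self, c_zero]
    by_cases hxy : x' = y'
    · rw [hxy, psi_self, c_zero]
    · have h1 := le_lev (hx.trans hy.symm) hxy
      obtain ⟨e1, -, -⟩ := c_psi (lev_eq (x := x') (y := y')) (lev_ne hxy)
      rw [← c_c_le h1, e1, c_zero]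
  · have h1 := lev_eq (x := x) (y := y)
    have h2 := lev_ne hxy
    set n := lev x y
    obtain ⟨m, hm⟩ := exists_add y (- c n x + (if c (n + 1) y = c n x then
      c (n + 1) x - c n x else 0)) k
    refine ⟨max m (n + 1), fun x' y' hx hy => ?_⟩
    have ex := c_mono (le_max_right m (n + 1)) hx
    have ey := c_mono (le_max_right m (n + 1)) hy
    have ex' := c_mono (Nat.le_succ n) ex
    have ey' := c_mono (Nat.le_succ n) ey
    have h3 := hm y' (c_mono (le_max_left m (n + 1)) hy)
    rw [psi_eq (n := n) (by rw [ex', ey', h1]) (by rw [ex, ey]; exact h2), psi_eq h1 h2, ex, ey, ex']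
    rw [← add_assoc, ← add_assoc, ← sub_eq_add_neg, ← sub_eq_add_neg] at h3
    exact h3

/-- continuity of the inverse of the rectification -/
theorem theta_cont (x z : V) (k : ℕ) : ∃ m, ∀ x' z', c m x' = c m x → c m z' = c m z →
    c k (theta x' z') = c k (theta x z) := by
  by_cases hz : z = 0
  · subst hz
    refine ⟨k, fun x' z' hx hz => ?_⟩
    rw [theta_zero]
    by_cases hz' : z' = 0
    · rw [hz', theta_zero, hx]
    · have h1 := le_lev (x := 0) (y := z') hz.symm (Ne.symm hz')
      have h2 := lev_eq (x := 0) (y := z')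
      have h3 := lev_ne (x := 0) (y := z') (Ne.symm hz')
      rw [c_zero] at h2 h3
      obtain ⟨e1, -, -⟩ := c_theta (x := x') h2.symm h3.symm
      rw [← hx]
      exact (c_mono h1 e1).symm
  · have h1 := lev_eq (x := 0) (y := z)
    have h2 := lev_ne (x := 0) (y := z) (Ne.symm hz)
    set n := lev 0 z
    rw [c_zero] at h1 h2
    obtain ⟨m, hm⟩ := exists_add z (c n x - (if c (n + 1) z = c (n + 1) x - c n x then
      c (n + 1) z else 0)) k
    refine ⟨max m (n + 1), fun x' z' hx hz => ?_⟩
    have ex := c_mono (le_max_right m (n + 1)) hx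
    have ez := c_mono (le_max_right m (n + 1)) hz
    have ex' := c_mono (Nat.le_succ n) ex
    have ez' := c_mono (Nat.le_succ n) ez
    have h3 := hm z' (c_mono (le_max_left m (n + 1)) hz)
    rw [theta_eq (n := n) (by rw [ez', ← h1]) (by rw [ez]; exact h2.symm),
      theta_eq h1.symm h2.symm, ex, ez, ex']
    rw [← add_sub_assoc, ← add_sub_assoc] at h3
    exact h3

end Pool.Agent.W642.RP
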