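import Mathlib
import Pool.Agent.W642.RP.Rect
import Pool.Agent.W642.RP.Affine
import Pool.Agent.W642.RP.Exist

set_option autoImplicit false

/-!
A rectifiable, regular (even separable metrizable zero-dimensional) paratopological group which is
not homeomorphic to any topological group.
-/

open Set Filter Topology

namespace Pool.Agent.W642.RP

/-- the group of the subspace `G`, written multiplicatively -/
def GT (G : Submodule ℚ V) : Type := Multiplicative G

instance (G : Submodule ℚ V) : CommGroup (GT G) := inferInstanceAs (CommGroup (Multiplicative G))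

/-- the underlying sequence -/
def vl {G : Submodule ℚ V} (x : GT G) : V := ((Multiplicative.toAdd (α := G) x : G) : V)

/-- the element given by a sequence in `G` -/
def mk' {G : Submodule ℚ V} (v : V) (h : v ∈ G) : GT G := Multiplicative.ofAdd (⟨v, h⟩ : G)

theorem vl_mk' {G : Submodule ℚ V} (v : V) (h : v ∈ G) : vl (mk' v h) = v := rfl

theorem vl_mem {G : Submodule ℚ V} (x : GT G) : vl x ∈ G := (Multiplicative.toAdd (α := G) x : G).2

theorem vl_inj {G : Submodule ℚ V} {x y : GT G} (h : vl x = vl y) : x = y :=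
  (Multiplicative.toAdd (α := G)).injective (Subtype.ext h)

theorem vl_mul {G : Submodule ℚ V} (x y : GT G) : vl (x * y) = vl x + vl y := rfl

instance (G : Submodule ℚ V) : TopologicalSpace (GT G) where
  IsOpen U := ∀ x ∈ U, ∃ n, ∀ z : GT G, c n (vl z) = c n (vl x) → z ∈ U
  isOpen_univ := fun _ _ => ⟨0, fun _ _ => trivial⟩
  isOpen_inter := by
    intro U W hU hW x hx
    obtain ⟨n, hn⟩ := hU x hx.1
    obtain ⟨m, hm⟩ := hW x hx.2
    exact ⟨max n m, fun z hz => ⟨hn z (c_mono (le_max_left _ _) hz),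
      hm z (c_mono (le_max_right _ _) hz)⟩⟩
  isOpen_sUnion := by
    intro S hS x hx
    obtain ⟨U, hU, hxU⟩ := hx
    obtain ⟨n, hn⟩ := hS U hU x hxU
    exact ⟨n, fun z hz => ⟨U, hU, hn z hz⟩⟩

theorem isOpen_iff' {G : Submodule ℚ V} {U : Set (GT G)} :
    IsOpen U ↔ ∀ x ∈ U, ∃ n, ∀ z : GT G, c n (vl z) = c n (vl x) → z ∈ U := Iff.rfl

/-- the boxes are open and closed -/
theorem box_open {G : Submodule ℚ V} (n : ℕ) (w : V) : IsOpen {z : GT G | c n (vl z) = w} := by
  rw [isOpen_iff']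
  intro x hx
  exact ⟨n, fun z hz => hz.trans hx⟩

theorem box_closed {G : Submodule ℚ V} (n : ℕ) (w : V) : IsClosed {z : GT G | c n (vl z) = w} := by
  rw [← isOpen_compl_iff, isOpen_iff']
  intro x hx
  exact ⟨n, fun z hz h => hx (hz.symm.trans h)⟩

theorem mem_nhds_iff' {G : Submodule ℚ V} {x : GT G} {U : Set (GT G)} :
    U ∈ 𝓝 x ↔ ∃ n, ∀ z : GT G, c n (vl z) = c n (vl x) → z ∈ U := by
  constructor
  · intro h
    obtain ⟨W, hWU, hW, hxW⟩ := mem_nhds_iff.1 h
    obtain ⟨n, hn⟩ := isOpen_iff'.1 hW x hxW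
    exact ⟨n, fun z hz => hWU (hn z hz)⟩
  · rintro ⟨n, hn⟩
    exact Filter.mem_of_superset ((box_open n (c n (vl x))).mem_nhds rfl) hn

instance (G : Submodule ℚ V) : T2Space (GT G) := by
  constructor
  intro x y hxy
  obtain ⟨n, hn⟩ : ∃ n, c n (vl x) ≠ c n (vl y) := by
    by_contra h
    push Not at h
    exact hxy (vl_inj (eq_of_c h))
  refine ⟨_, _, box_open n (c n (vl x)), box_open n (c n (vl y)), rfl, rfl, ?_⟩
  rw [Set.disjoint_left]
  intro z hz1 hz2
  exact hn (hz1.symm.trans hz2)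

instance (G : Submodule ℚ V) : RegularSpace (GT G) := by
  apply RegularSpace.of_exists_mem_nhds_isClosed_subset
  intro x s hs
  obtain ⟨n, hn⟩ := mem_nhds_iff'.1 hs
  exact ⟨_, (box_open n (c n (vl x))).mem_nhds rfl, box_closed n _, hn⟩

instance (G : Submodule ℚ V) : T3Space (GT G) := {}

theorem cont2 {G : Submodule ℚ V} (f : GT G × GT G → GT G)
    (h : ∀ (x y : GT G) (k : ℕ), ∃ m, ∀ x' y' : GT G, c m (vl x') = c m (vl x) →
      c m (vl y') = c m (vl y) → c k (vl (f (x', y'))) = c k (vl (f (x, y)))) : Continuous f := by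
  rw [continuous_iff_continuousAt]
  rintro ⟨x, y⟩
  intro U hU
  obtain ⟨k, hk⟩ := mem_nhds_iff'.1 hU
  obtain ⟨m, hm⟩ := h x y k
  rw [Filter.mem_map, nhds_prod_eq]
  refine Filter.mem_of_superset (Filter.prod_mem_prod ((box_open m (c m (vl x))).mem_nhds rfl)
    ((box_open m (c m (vl y))).mem_nhds rfl)) ?_
  rintro ⟨x', y'⟩ ⟨hx, hy⟩
  exact hk _ (hm x' y' hx hy)

theorem exists_add2 (x y : V) (k : ℕ) : ∃ m, ∀ x' y', c m x' = c m x → c m y' = c m y →
    c k (x' + y') = c k (x + y) := by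
  obtain ⟨p, hp⟩ := exists_Nb k (x + y)
  obtain ⟨m1, hm1⟩ := exists_box (2 * p + 1) x
  obtain ⟨m2, hm2⟩ := exists_box (2 * p + 1) y
  refine ⟨max m1 m2, fun x' y' hx hy => hp _ ?_⟩
  intro i hi
  obtain ⟨h1, h2⟩ := hm1 x' (c_mono (le_max_left _ _) hx) i (by omega)
  obtain ⟨h3, h4⟩ := hm2 y' (c_mono (le_max_right _ _) hy) i (by omega)
  simp only [Pi.add_apply]
  refine ⟨by linarith, ?_⟩
  have h5 : (1 : ℚ) / ((2 * p + 1 : ℕ) + 1) + 1 / ((2 * p + 1 : ℕ) + 1) = 1 / ((p : ℚ) + 1) := by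
    push_cast
    field_simp
    ring
  linarith

instance (G : Submodule ℚ V) : ContinuousMul (GT G) := by
  constructor
  apply cont2
  intro x y k
  obtain ⟨m, hm⟩ := exists_add2 (vl x) (vl y) k
  refine ⟨m, fun x' y' hx hy => ?_⟩
  simp only [vl_mul]
  exact hm _ _ hx hy

/-- the rectification as a homeomorphism -/
noncomputable def rect {G : Submodule ℚ V} (hD : D ≤ G) : (GT G × GT G) ≃ₜ (GT G × GT G) where
  toFun p := (p.1, mk' (psi (vl p.1) (vl p.2)) (psi_mem hD (vl_mem p.2)))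
  invFun p := (p.1, mk' (theta (vl p.1) (vl p.2)) (theta_mem hD (vl_mem p.1) (vl_mem p.2)))
  left_inv p := by
    apply Prod.ext
    · rfl
    · apply vl_inj
      simp only [vl_mk', theta_psi]
  right_inv p := by
    apply Prod.ext
    · rfl
    · apply vl_inj
      simp only [vl_mk', psi_theta]
  continuous_toFun := by
    refine continuous_fst.prodMk ?_
    apply cont2
    intro x y k
    obtain ⟨m, hm⟩ := psi_cont (vl x) (vl y) k
    exact ⟨m, fun x' y' hx hy => hm _ _ hx hy⟩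
  continuous_invFun := by
    refine continuous_fst.prodMk ?_
    apply cont2
    intro x y k
    obtain ⟨m, hm⟩ := theta_cont (vl x) (vl y) k
    exact ⟨m, fun x' y' hx hy => hm _ _ hx hy⟩

theorem rectifiable {G : Submodule ℚ V} (hD : D ≤ G) :
    ∃ (φ : (GT G × GT G) ≃ₜ (GT G × GT G)) (e : GT G),
      (∀ p : GT G × GT G, (φ p).1 = p.1) ∧ ∀ x : GT G, φ (x, x) = (x, e) := by
  refine ⟨rect hD, mk' 0 G.zero_mem, fun p => rfl, fun x => ?_⟩
  apply Prod.ext
  · rfl
  · apply vl_inj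
    show psi (vl x) (vl x) = 0
    exact psi_self _

/-- the underlying element of `G` -/
def toG {G : Submodule ℚ V} (x : GT G) : G := Multiplicative.toAdd (α := G) x

/-- the element of `GT G` given by an element of `G` -/
def ofG {G : Submodule ℚ V} (x : G) : GT G := Multiplicative.ofAdd x

theorem toG_ofG {G : Submodule ℚ V} (x : G) : toG (ofG x) = x := rfl

theorem ofG_toG {G : Submodule ℚ V} (x : GT G) : ofG (toG x) = x := rfl

theorem toG_inj {G : Submodule ℚ V} {x y : GT G} (h : toG x = toG y) : x = y := by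
  rw [← ofG_toG x, h, ofG_toG]

theorem ofG_inj {G : Submodule ℚ V} {x y : G} (h : ofG x = ofG y) : x = y := by
  rw [← toG_ofG x, h, toG_ofG]

theorem tc_tr {G : Submodule ℚ V} {f : GT G → GT G} (hf : Continuous f) :
    TC fun x : G => toG (f (ofG x)) := by
  intro x n
  obtain ⟨k, hk⟩ := exists_box n ((toG (f (ofG x)) : G) : V)
  have h1 : {z : GT G | c k (vl z) = c k (vl (f (ofG x)))} ∈ 𝓝 (f (ofG x)) :=
    (box_open k _).mem_nhds rfl
  have h2 := hf.continuousAt.preimage_mem_nhds h1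
  obtain ⟨m, hm⟩ := mem_nhds_iff'.1 h2
  obtain ⟨p, hp⟩ := exists_Nb m (x : V)
  refine ⟨p, fun z hz => ?_⟩
  have h3 := hp z hz
  have h4 := hm (ofG z) h3
  exact hk _ h4

theorem no_maps {G : Submodule ℚ V} (hD : D ≤ G) (hG : Big G) (hK : Kill G)
    (m k : GT G → GT G → GT G) (hm1 : ∀ a, Continuous (m a)) (hm2 : ∀ x, Continuous fun a => m a x)
    (hk1 : ∀ a, Continuous (k a)) (hk2 : ∀ x, Continuous fun a => k a x)
    (hmk : ∀ a z, m a (k a z) = z) (hi1 : ∀ a, Function.Injective (k a))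
    (hi2 : ∀ z, Function.Injective fun a => k a z) : False := by
  refine no_group hD hG hK (fun a x => toG (m (ofG a) (ofG x)))
    (fun a x => toG (k (ofG a) (ofG x))) (fun a => tc_tr (hm1 (ofG a)))
    (fun x => tc_tr (hm2 (ofG x))) (fun a => tc_tr (hk1 (ofG a)))
    (fun x => tc_tr (hk2 (ofG x))) ?_ ?_ ?_
  · intro a z
    show toG (m (ofG a) (ofG (toG (k (ofG a) (ofG z))))) = z
    rw [ofG_toG, hmk, toG_ofG]
  · intro a x y h
    exact ofG_inj (hi1 (ofG a) (toG_inj h))
  · intro z x y h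
    exact ofG_inj (hi2 (ofG z) (toG_inj h))

theorem main : ∃ G : Submodule ℚ V, D ≤ G ∧ ∀ (H : Type) (_ : Group H) (_ : TopologicalSpace H),
    IsTopologicalGroup H → ¬ Nonempty (GT G ≃ₜ H) := by
  obtain ⟨G, hD, hG, hK⟩ := exists_G
  refine ⟨G, hD, ?_⟩
  rintro H _ _ _ ⟨Ψ⟩
  refine no_maps hD hG hK (fun a x => Ψ.symm (Ψ a * Ψ x)) (fun a x => Ψ.symm ((Ψ a)⁻¹ * Ψ x))
    (fun a => Ψ.symm.continuous.comp (continuous_const.mul Ψ.continuous))
    (fun x => Ψ.symm.continuous.comp (Ψ.continuous.mul continuous_const))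
    (fun a => Ψ.symm.continuous.comp (continuous_const.mul Ψ.continuous))
    (fun x => Ψ.symm.continuous.comp (Ψ.continuous.inv.mul continuous_const)) ?_ ?_ ?_
  · intro a z
    simp
  · intro a x y h
    simpa using h
  · intro z x y h
    simpa using h

end Pool.Agent.W642.RP
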